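import Pool.Agent.Work.MP_1e087a_ag.Defs

/-!
# Products of reflections: basic properties, twists by line bundles
-/

namespace Pool.Agent.Mukai

/-- the condition on the vectors -/
def Unit2 (n B C : ℤ) (v : Mu) : Prop := Qf n B C v = 1 ∨ Qf n B C v = -1

variable {n B C : ℤ}

theorem refl_refl {v : Mu} (hv : Unit2 n B C v) (x : Mu) :
    refl n B C v (refl n B C v x) = x := by
  obtain ⟨v1, v2, v3, v4⟩ := v
  obtain ⟨x1, x2, x3, x4⟩ := x
  have h1 : Qf n B C (v1, v2, v3, v4) * Qf n B C (v1, v2, v3, v4) = 1 := by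
    rcases hv with h | h <;> rw [h] <;> norm_num
  generalize hq : Qf n B C (v1, v2, v3, v4) = q at h1
  have hq' : n * v3 ^ 2 + B * (v3 * v4) + C * v4 ^ 2 - v1 * v2 = q := hq
  have h2 : Pf n B C (refl n B C (v1, v2, v3, v4) (x1, x2, x3, x4)) (v1, v2, v3, v4) =
      - Pf n B C (x1, x2, x3, x4) (v1, v2, v3, v4) := by
    simp only [refl, hq, Pf, pf, Prod.fst_sub, Prod.snd_sub, Prod.smul_fst, Prod.smul_snd,
      smul_eq_mul]
    linear_combination
      (-(2 * n * (x3 * v3) + B * (x3 * v4 + x4 * v3) + 2 * C * (x4 * v4) - x1 * v2 - x2 * v1) *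
        (2 * q)) * hq' + (-2 * (2 * n * (x3 * v3) + B * (x3 * v4 + x4 * v3) +
          2 * C * (x4 * v4) - x1 * v2 - x2 * v1)) * h1
  generalize hP : Pf n B C (x1, x2, x3, x4) (v1, v2, v3, v4) = P at h2
  rw [refl, h2, hq]
  simp only [refl, hq, hP]
  ext <;> simp

theorem refl_add (v x y : Mu) : refl n B C v (x + y) = refl n B C v x + refl n B C v y := by
  have h : Pf n B C (x + y) v = Pf n B C x v + Pf n B C y v := by
    simp only [Pf, pf, Prod.fst_add, Prod.snd_add]
    ring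
  unfold refl
  rw [h, mul_add, add_smul]
  abel

/-- automorphisms of the group -/
abbrev Au : Type := Mu ≃ₗ[ℤ] Mu

/-- the reflection as an automorphism of the group -/
def R (n B C : ℤ) (v : Mu) (hv : Unit2 n B C v) : Au :=
  AddEquiv.toIntLinearEquiv
  { toFun := refl n B C v
    invFun := refl n B C v
    left_inv := refl_refl hv
    right_inv := refl_refl hv
    map_add' := refl_add v }

theorem R_apply {v : Mu} (hv : Unit2 n B C v) (x : Mu) : R n B C v hv x = refl n B C v x := rfl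

/-- isometries -/
def Isom (n B C : ℤ) (g : Au) : Prop := ∀ x, Qf n B C (g x) = Qf n B C x

theorem Pf_eq (x y : Mu) : Pf n B C x y = Qf n B C (x + y) - Qf n B C x - Qf n B C y := by
  simp only [Pf, pf, Qf, qf, Prod.fst_add, Prod.snd_add]
  ring

theorem Isom.Pf {g : Au} (hg : Isom n B C g) (x y : Mu) :
    Pf n B C (g x) (g y) = Pf n B C x y := by
  rw [Pf_eq, Pf_eq, ← map_add, hg, hg, hg]

theorem Isom.refl {g : Au} (hg : Isom n B C g) (v x : Mu) :
    g (refl n B C v x) = Mukai.refl n B C (g v) (g x) := by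
  unfold Mukai.refl
  rw [map_sub, map_zsmul, hg v, hg.Pf]

theorem apply_inv (g : Au) (x : Mu) : g (g⁻¹ x) = x := LinearEquiv.apply_symm_apply g x

theorem Isom.mul {g h : Au} (hg : Isom n B C g) (hh : Isom n B C h) :
    Isom n B C (g * h) := by
  intro x
  rw [LinearEquiv.mul_apply, hg, hh]

theorem Isom.inv {g : Au} (hg : Isom n B C g) : Isom n B C g⁻¹ := by
  intro x
  rw [← hg, apply_inv]

theorem Isom.unit2 {g : Au} (hg : Isom n B C g) {v : Mu} (hv : Unit2 n B C v) :
    Unit2 n B C (g v) := by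
  unfold Unit2
  rw [hg]
  exact hv

/-- the group generated by the reflections -/
def W (n B C : ℤ) : Subgroup Au :=
  Subgroup.closure {g | ∃ v, ∃ hv : Unit2 n B C v, g = R n B C v hv}

theorem R_mem {v : Mu} (hv : Unit2 n B C v) : R n B C v hv ∈ W n B C :=
  Subgroup.subset_closure ⟨v, hv, rfl⟩

theorem R_mul_self {v : Mu} (hv : Unit2 n B C v) : R n B C v hv * R n B C v hv = 1 := by
  apply LinearEquiv.ext
  intro x
  exact refl_refl hv x

theorem R_inv {v : Mu} (hv : Unit2 n B C v) : (R n B C v hv)⁻¹ = R n B C v hv := by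
  rw [inv_eq_iff_mul_eq_one]
  exact R_mul_self hv

theorem conj_mem {g w : Au} (hg : Isom n B C g) (hw : w ∈ W n B C) :
    g * w * g⁻¹ ∈ W n B C := by
  induction hw using Subgroup.closure_induction with
  | mem w hw =>
    obtain ⟨v, hv, rfl⟩ := hw
    have h : g * R n B C v hv * g⁻¹ = R n B C (g v) (hg.unit2 hv) := by
      apply LinearEquiv.ext
      intro x
      show g (refl n B C v (g⁻¹ x)) = refl n B C (g v) x
      rw [hg.refl, apply_inv]
    rw [h]
    exact R_mem _
  | one => simp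
  | mul a b _ _ ha hb =>
    have h : g * (a * b) * g⁻¹ = (g * a * g⁻¹) * (g * b * g⁻¹) := by group
    rw [h]
    exact mul_mem ha hb
  | inv a _ ha =>
    have h : g * a⁻¹ * g⁻¹ = (g * a * g⁻¹)⁻¹ := by group
    rw [h]
    exact inv_mem ha

theorem isProd_of_mem {g : Au} (hg : g ∈ W n B C) : IsProd n B C g := by
  induction hg using Subgroup.closure_induction_left with
  | one => exact ⟨[], by simp, fun x => rfl⟩
  | mul_left w hw y _ hy =>
    obtain ⟨v, hv, rfl⟩ := hw
    obtain ⟨l, h1, h2⟩ := hy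
    refine ⟨v :: l, ?_, fun x => ?_⟩
    · intro w hw
      rcases List.mem_cons.1 hw with rfl | hw
      · exact hv
      · exact h1 w hw
    · rw [LinearEquiv.mul_apply, h2 x]
      rfl
  | inv_mul_cancel w hw y _ hy =>
    obtain ⟨v, hv, rfl⟩ := hw
    obtain ⟨l, h1, h2⟩ := hy
    refine ⟨v :: l, ?_, fun x => ?_⟩
    · intro w hw
      rcases List.mem_cons.1 hw with rfl | hw
      · exact hv
      · exact h1 w hw
    · rw [R_inv, LinearEquiv.mul_apply, h2 x]
      rfl

/-- the twist by `a` (multiplication by the Chern character) -/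
def ex (n B C : ℤ) (a : ℤ × ℤ) : Au :=
  AddEquiv.toIntLinearEquiv
  { toFun := fun x => (x.1, x.2.1 + pf n B C a x.2.2 + x.1 * qf n B C a, x.2.2 + x.1 • a)
    invFun := fun x => (x.1, x.2.1 - pf n B C a x.2.2 + x.1 * qf n B C a, x.2.2 - x.1 • a)
    left_inv := by
      intro x
      obtain ⟨x1, x2, x3, x4⟩ := x
      obtain ⟨a1, a2⟩ := a
      ext <;> simp [pf, qf]
      ring
    right_inv := by
      intro x
      obtain ⟨x1, x2, x3, x4⟩ := x
      obtain ⟨a1, a2⟩ := a
      ext <;> simp [pf, qf]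
      ring
    map_add' := by
      intro x y
      obtain ⟨x1, x2, x3, x4⟩ := x
      obtain ⟨y1, y2, y3, y4⟩ := y
      obtain ⟨a1, a2⟩ := a
      ext <;> simp [pf, qf] <;> ring }

theorem ex_apply (a : ℤ × ℤ) (x : Mu) : ex n B C a x =
    (x.1, x.2.1 + pf n B C a x.2.2 + x.1 * qf n B C a, x.2.2 + x.1 • a) := rfl

theorem ex_isom (a : ℤ × ℤ) : Isom n B C (ex n B C a) := by
  intro x
  rw [ex_apply]
  obtain ⟨x1, x2, x3, x4⟩ := x
  obtain ⟨a1, a2⟩ := a
  simp only [Qf, qf, pf, Prod.fst_add, Prod.snd_add, Prod.smul_fst, Prod.smul_snd, smul_eq_mul]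
  ring

theorem ex_add (a b : ℤ × ℤ) : ex n B C (a + b) = ex n B C a * ex n B C b := by
  apply LinearEquiv.ext
  intro x
  rw [LinearEquiv.mul_apply, ex_apply, ex_apply, ex_apply]
  obtain ⟨x1, x2, x3, x4⟩ := x
  obtain ⟨a1, a2⟩ := a
  obtain ⟨b1, b2⟩ := b
  ext <;> simp [pf, qf] <;> ring

theorem ex_zero : ex n B C 0 = 1 := by
  have h := ex_add (n := n) (B := B) (C := C) 0 0
  rw [add_zero] at h
  exact (mul_eq_left.1 h.symm)

theorem ex_neg (a : ℤ × ℤ) : ex n B C (-a) = (ex n B C a)⁻¹ := by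
  rw [eq_inv_iff_mul_eq_one, ← ex_add, neg_add_cancel, ex_zero]

theorem tau_unit : Unit2 n B C (1, -1, 0) := by
  left
  simp [Qf, qf]

theorem tau'_unit : Unit2 n B C (1, 1, 0) := by
  right
  simp [Qf, qf]

/-- the reflection `(r, s, D) ↦ (s, r, D)` -/
def T (n B C : ℤ) : Au := R n B C (1, -1, 0) tau_unit

/-- the reflection `(r, s, D) ↦ (-s, -r, D)` -/
def T' (n B C : ℤ) : Au := R n B C (1, 1, 0) tau'_unit

theorem T_apply (x : Mu) : T n B C x = (x.2.1, x.1, x.2.2) := by
  show refl n B C (1, -1, 0) x = _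
  obtain ⟨x1, x2, x3, x4⟩ := x
  ext <;> simp [refl, pf, qf, Qf, Pf]

theorem T'_apply (x : Mu) : T' n B C x = (-x.2.1, -x.1, x.2.2) := by
  show refl n B C (1, 1, 0) x = _
  obtain ⟨x1, x2, x3, x4⟩ := x
  ext <;> simp [refl, pf, qf, Qf, Pf]

theorem T_mem : T n B C ∈ W n B C := R_mem _
theorem T'_mem : T' n B C ∈ W n B C := R_mem _
theorem T_mul : T n B C * T n B C = 1 := R_mul_self _
theorem T'_mul : T' n B C * T' n B C = 1 := R_mul_self _

theorem T_ex (a : ℤ × ℤ) : T n B C * ex n B C a * T n B C =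
    T' n B C * ex n B C (-a) * T' n B C := by
  apply LinearEquiv.ext
  intro x
  simp only [LinearEquiv.mul_apply, T_apply, T'_apply, ex_apply]
  obtain ⟨x1, x2, x3, x4⟩ := x
  obtain ⟨a1, a2⟩ := a
  ext <;> simp [pf, qf]
  ring

/-- the twist by `2a` -/
theorem ex_two_mem (a : ℤ × ℤ) : ex n B C (a + a) ∈ W n B C := by
  have h1 : ex n B C a * T n B C * (ex n B C a)⁻¹ ∈ W n B C := conj_mem (ex_isom a) T_mem
  have h2 : (ex n B C a)⁻¹ * T' n B C * (ex n B C a)⁻¹⁻¹ ∈ W n B C :=
    conj_mem (ex_isom a).inv T'_mem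
  have hT : (T n B C)⁻¹ = T n B C := by
    rw [inv_eq_iff_mul_eq_one]; exact T_mul
  have hT' : (T' n B C)⁻¹ = T' n B C := by
    rw [inv_eq_iff_mul_eq_one]; exact T'_mul
  -- `a T = (a T a⁻¹) a`
  have e : ex n B C (a + a) =
      (ex n B C a * T n B C * (ex n B C a)⁻¹) * (T n B C) *
        ((T' n B C) * ((ex n B C a)⁻¹ * T' n B C * (ex n B C a)⁻¹⁻¹)) := by
    have h3 := T_ex (n := n) (B := B) (C := C) a
    rw [ex_neg] at h3
    rw [ex_add]
    have h4 : T' n B C * (ex n B C a)⁻¹ * T' n B C * ex n B C a =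
        T n B C * ex n B C a * T n B C * ex n B C a := by rw [h3]
    have h5 : (ex n B C a * T n B C * (ex n B C a)⁻¹) * (T n B C) *
        ((T' n B C) * ((ex n B C a)⁻¹ * T' n B C * (ex n B C a)⁻¹⁻¹)) =
        (ex n B C a * T n B C * (ex n B C a)⁻¹) * (T n B C) *
        (T' n B C * (ex n B C a)⁻¹ * T' n B C * ex n B C a) := by group
    rw [h5, h4]
    have h6 : (ex n B C a * T n B C * (ex n B C a)⁻¹) * (T n B C) *
        (T n B C * ex n B C a * T n B C * ex n B C a) =
        ex n B C a * T n B C * (ex n B C a)⁻¹ * (T n B C * T n B C) *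
          ex n B C a * T n B C * ex n B C a := by group
    rw [h6, T_mul]
    have h7 : ex n B C a * T n B C * (ex n B C a)⁻¹ * 1 * ex n B C a * T n B C * ex n B C a =
        ex n B C a * (T n B C * T n B C) * ex n B C a := by group
    rw [h7, T_mul, mul_one]
  rw [e]
  exact mul_mem (mul_mem h1 T_mem) (mul_mem T'_mem h2)

theorem pf_comm (a b : ℤ × ℤ) : pf n B C a b = pf n B C b a := by
  simp only [pf]
  ring

theorem pf_self (a : ℤ × ℤ) : pf n B C a a = 2 * qf n B C a := by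
  simp only [pf, qf]
  ring

theorem Pf_add_smul (x v w : Mu) (p : ℤ) :
    Pf n B C (x + p • v) w = Pf n B C x w + p * Pf n B C v w := by
  simp only [Pf, pf, Prod.fst_add, Prod.snd_add, Prod.smul_fst, Prod.smul_snd, smul_eq_mul]
  ring

/-- the twist by a vector with odd `qf` -/
theorem ex_odd_mem {a : ℤ × ℤ} {c : ℤ} (ha : qf n B C a = 2 * c + 1) : ex n B C a ∈ W n B C := by
  have q1 : Qf n B C (-2, -c, a) = 1 := by
    simp only [Qf, ha]
    ring
  have q2 : Qf n B C (-2, -(c + 1), a) = -1 := by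
    simp only [Qf, ha]
    ring
  have h1 : Unit2 n B C (-2, -c, a) := Or.inl q1
  have h2 : Unit2 n B C (-2, -(c + 1), a) := Or.inr q2
  have h12 : Pf n B C (-2, -(c + 1), a) (-2, -c, a) = 0 := by
    simp only [Pf, pf_self, ha]
    ring
  have e : ex n B C a = T n B C * T' n B C * R n B C _ h1 * R n B C _ h2 := by
    apply LinearEquiv.ext
    intro x
    have p1 : Pf n B C x (-2, -c, a) = pf n B C a x.2.2 + c * x.1 + 2 * x.2.1 := by
      simp only [Pf, pf_comm x.2.2 a]
      ring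
    have p2 : Pf n B C x (-2, -(c + 1), a) = pf n B C a x.2.2 + (c + 1) * x.1 + 2 * x.2.1 := by
      simp only [Pf, pf_comm x.2.2 a]
      ring
    simp only [LinearEquiv.mul_apply, T_apply, T'_apply, ex_apply, R_apply]
    have e2 : refl n B C (-2, -(c + 1), a) x =
        x + (pf n B C a x.2.2 + (c + 1) * x.1 + 2 * x.2.1) • ((-2, -(c + 1), a) : Mu) := by
      rw [refl, q2, p2, neg_one_mul, neg_smul, sub_neg_eq_add]
    have e1 : refl n B C (-2, -c, a) (refl n B C (-2, -(c + 1), a) x) =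
        (x + (pf n B C a x.2.2 + (c + 1) * x.1 + 2 * x.2.1) • ((-2, -(c + 1), a) : Mu)) -
          (pf n B C a x.2.2 + c * x.1 + 2 * x.2.1) • ((-2, -c, a) : Mu) := by
      rw [e2, refl, q1, Pf_add_smul, h12, p1, mul_zero, add_zero, one_mul]
    rw [e1, ha]
    generalize pf n B C a x.2.2 = P
    obtain ⟨x1, x2, x3, x4⟩ := x
    obtain ⟨a1, a2⟩ := a
    ext <;> simp <;> ring
  rw [e]
  exact mul_mem (mul_mem (mul_mem T_mem T'_mem) (R_mem _)) (R_mem _)

/-- the twists, modulo the products of reflections -/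
theorem ex_mem_of_sub {a b c : ℤ × ℤ} (h : a = b + (c + c)) (hb : ex n B C b ∈ W n B C) :
    ex n B C a ∈ W n B C := by
  rw [h, ex_add]
  exact mul_mem hb (ex_two_mem c)

end Pool.Agent.Mukai
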