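import Pool.Agent.Work.MP_1e087a_ag.Ident

/-!
# The criterion
-/

namespace Pool.Agent.Mukai

variable {n B C : ℤ}

theorem unit_H {ρ s d : ℤ} {β : ℤ × ℤ} (hd : d = 1 ∨ d = -1)
    (hρ : ρ * s = d * qf n B C β + 1) : Unit2 n B C (d * ρ, s, β) := by
  have h : Qf n B C (d * ρ, s, β) = -d := by
    simp only [Qf]
    rcases hd with rfl | rfl
    · linear_combination -hρ
    · linear_combination hρ
  rcases hd with rfl | rfl
  · right; rw [h]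
  · left; rw [h]; norm_num

theorem unit_H' {d : ℤ} (hd : d = 1 ∨ d = -1) : Unit2 n B C (1, d, 0) := by
  have h : Qf n B C (1, d, 0) = -d := by simp [Qf, qf]
  rcases hd with rfl | rfl
  · right; rw [h]
  · left; rw [h]; norm_num

/-- the identity in the group, and the consequence modulo the twists -/
theorem mE_mem_of_ex {δ t ν ρ₁ ρ₂ s₁ s₂ d₁ d₂ c z : ℤ} (hn : n ≠ 0) (ht : t ≠ 0) (h1 : ρ₁ ≠ 0)
    (h2 : ρ₂ ≠ 0) (hν : ν = 1 ∨ ν = -1) (hν' : ν * ν = 1)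
    (hd₁ : d₁ = 1 ∨ d₁ = -1) (hd₂ : d₂ = 1 ∨ d₂ = -1)
    (hN : δ * (δ + t * B) + t ^ 2 * n * C = ν) (hρ₁ : ρ₁ * s₁ = d₁ * (ν * n) + 1)
    (hρ₂ : ρ₂ * s₂ = d₂ * n + 1) (hc : n * c = ν * ρ₁ * δ - ρ₂)
    (hz : n * z = (ν * s₁ - (2 * δ + t * B) * s₂) * δ + ν * s₂)
    (hex : ex n B C ((z, (ν * s₁ - (2 * δ + t * B) * s₂) * t) + (c, ν * ρ₁ * t)) ∈ W n B C) :
    mE n B C δ t ν hν' hN ∈ W n B C := by
  have hqb : qf n B C (1, 0) = n := by simp [qf]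
  have hqE : qf n B C (δ, t * n) = ν * n := by
    simp only [qf]
    linear_combination n * hN
  have hρ₂' : ρ₂ * s₂ = d₂ * qf n B C (1, 0) + 1 := by rw [hqb]; exact hρ₂
  have hρ₁' : ρ₁ * s₁ = d₁ * qf n B C (δ, t * n) + 1 := by rw [hqE]; exact hρ₁
  have hdd₁ : d₁ * d₁ = 1 := by rcases hd₁ with rfl | rfl <;> norm_num
  have hdd₂ : d₂ * d₂ = 1 := by rcases hd₂ with rfl | rfl <;> norm_num
  set cc : ℤ × ℤ := (c, ν * ρ₁ * t) with hcc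
  set zz : ℤ × ℤ := (z, (ν * s₁ - (2 * δ + t * B) * s₂) * t) with hzz
  set G₂ : Au := R n B C _ (unit_H hd₂ hρ₂') * R n B C _ (unit_H' hd₂) with hG₂
  set G₁ : Au := R n B C _ (unit_H hd₁ hρ₁') * R n B C _ (unit_H' hd₁) with hG₁
  have hG₂m : G₂ ∈ W n B C := mul_mem (R_mem _) (R_mem _)
  have hG₁m : G₁ ∈ W n B C := mul_mem (R_mem _) (R_mem _)
  have key : mE n B C δ t ν hν' hN * G₂ * ex n B C cc = (ex n B C zz)⁻¹ * G₁ := by
    rw [← ex_neg]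
    apply LinearEquiv.ext
    rintro ⟨r, e, u, w⟩
    have hI := ident (n := n) (B := B) (C := C) hn ht h1 h2 hν hd₁ hd₂ hN hρ₁ hρ₂ hc hz r e u w
    simp only at hI
    obtain ⟨i1, i2, i3, i4⟩ := hI
    simp only [hG₁, hG₂, LinearEquiv.mul_apply, R_apply, refl_two hdd₁ hρ₁', refl_two hdd₂ hρ₂',
      mE_apply, ex_apply, hqb, hqE]
    ext
    · simp only [hcc, hzz, pf, qf, Em, Prod.fst_add, Prod.snd_add, Prod.smul_fst,
        Prod.smul_snd, smul_eq_mul, Prod.fst_neg, Prod.snd_neg]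
      linear_combination i1
    · simp only [hcc, hzz, pf, qf, Em, Prod.fst_add, Prod.snd_add, Prod.smul_fst,
        Prod.smul_snd, smul_eq_mul, Prod.fst_neg, Prod.snd_neg]
      linear_combination i2
    · simp only [hcc, hzz, pf, qf, Em, Prod.fst_add, Prod.snd_add, Prod.smul_fst,
        Prod.smul_snd, smul_eq_mul, Prod.fst_neg, Prod.snd_neg]
      linear_combination i3
    · simp only [hcc, hzz, pf, qf, Em, Prod.fst_add, Prod.snd_add, Prod.smul_fst,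
        Prod.smul_snd, smul_eq_mul, Prod.fst_neg, Prod.snd_neg]
      linear_combination i4
  have e : mE n B C δ t ν hν' hN = ((ex n B C zz)⁻¹ * G₁ * (ex n B C zz)⁻¹⁻¹) *
      (ex n B C (zz + cc))⁻¹ * G₂⁻¹ := by
    have e1 : mE n B C δ t ν hν' hN = (ex n B C zz)⁻¹ * G₁ * (ex n B C cc)⁻¹ * G₂⁻¹ := by
      rw [← key]
      group
    rw [e1, add_comm zz cc, ex_add]
    group
  rw [e]
  exact mul_mem (mul_mem (conj_mem (ex_isom zz).inv hG₁m) (inv_mem hex)) (inv_mem hG₂m)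

set_option synthInstance.maxSize 100000 in
set_option maxRecDepth 100000 in
theorem parity_aux : ∀ n B C δ t ρ₁ ρ₂ s₁ s₂ k c : ZMod 2,
    δ * (δ + t * B) + t ^ 2 * n * C = 1 → ρ₁ * s₁ = n + 1 → ρ₂ * s₂ = n + 1 →
    k * (ρ₁ * ρ₂) = c + ρ₂ + δ * ρ₁ →
    (δ * k + t ^ 2 * C * s₂ + c = 0 ∧ (s₁ + t * B * s₂) * t + ρ₁ * t = 0) ∨
    (δ * k + t ^ 2 * C * s₂ + c = 1 ∧ (s₁ + t * B * s₂) * t + ρ₁ * t = 0 ∧
      (n = 1 ∨ (C = 1 ∧ B = n))) ∨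
    (δ * k + t ^ 2 * C * s₂ + c = 0 ∧ (s₁ + t * B * s₂) * t + ρ₁ * t = 1 ∧
      (C = 1 ∨ (n = 1 ∧ B = C))) ∨
    (δ * k + t ^ 2 * C * s₂ + c = 1 ∧ (s₁ + t * B * s₂) * t + ρ₁ * t = 1 ∧
      (n + B + C = 1 ∨ (n = 1 ∧ C = 1))) := by
  decide

theorem cast_two_eq_zero {a : ℤ} (h : (a : ZMod 2) = 0) : ∃ b, a = b + b := by
  rw [ZMod.intCast_zmod_eq_zero_iff_dvd] at h
  obtain ⟨b, hb⟩ := h
  exact ⟨b, by rw [hb]; push_cast; ring⟩

theorem cast_two_eq_one {a : ℤ} (h : (a : ZMod 2) = 1) : ∃ b, a = 2 * b + 1 := by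
  have h1 : ((a - 1 : ℤ) : ZMod 2) = 0 := by
    push_cast
    rw [h, sub_self]
  obtain ⟨b, hb⟩ := cast_two_eq_zero h1
  exact ⟨b, by linarith⟩

theorem ex_odd_mem' {a : ℤ × ℤ} (h : (qf n B C a : ZMod 2) = 1) : ex n B C a ∈ W n B C := by
  obtain ⟨b, hb⟩ := cast_two_eq_one h
  exact ex_odd_mem hb

/-- parity: the twist in `mE_mem_of_ex` is a product of reflections -/
theorem mE_mem {δ t ν ρ₁ ρ₂ s₁ s₂ d₁ d₂ c : ℤ} (hn : n ≠ 0) (ht : t ≠ 0) (h1 : ρ₁ ≠ 0)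
    (h2 : ρ₂ ≠ 0) (hν : ν = 1 ∨ ν = -1) (hν' : ν * ν = 1)
    (hd₁ : d₁ = 1 ∨ d₁ = -1) (hd₂ : d₂ = 1 ∨ d₂ = -1)
    (hN : δ * (δ + t * B) + t ^ 2 * n * C = ν) (hρ₁ : ρ₁ * s₁ = d₁ * (ν * n) + 1)
    (hρ₂ : ρ₂ * s₂ = d₂ * n + 1) (hc : n * c = ν * ρ₁ * δ - ρ₂) :
    mE n B C δ t ν hν' hN ∈ W n B C := by
  -- the second quotient
  have hcop : IsCoprime n (ρ₁ * ρ₂) := by
    have c1 : IsCoprime n ρ₁ := ⟨-(d₁ * ν), s₁, by linear_combination hρ₁⟩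
    have c2 : IsCoprime n ρ₂ := ⟨-d₂, s₂, by linear_combination hρ₂⟩
    exact c1.mul_right c2
  have h3 : (ν * s₁ - δ * s₂) * (ρ₁ * ρ₂) = n * (-(ν * c) + d₁ * ρ₂ - d₂ * (δ * ρ₁)) := by
    linear_combination (ν * ρ₂) * hρ₁ + (-(δ * ρ₁)) * hρ₂ + ν * hc +
      (d₁ * n * ρ₂ + δ * ρ₁) * hν'
  obtain ⟨k, hk⟩ : n ∣ ν * s₁ - δ * s₂ := hcop.dvd_of_dvd_mul_right ⟨_, h3⟩
  have hk' : k * (ρ₁ * ρ₂) = -(ν * c) + d₁ * ρ₂ - d₂ * (δ * ρ₁) := by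
    apply mul_left_cancel₀ hn
    linear_combination h3 - (ρ₁ * ρ₂) * hk
  have hz : n * (δ * k + t ^ 2 * C * s₂) =
      (ν * s₁ - (2 * δ + t * B) * s₂) * δ + ν * s₂ := by
    linear_combination (-δ) * hk + s₂ * hN
  refine mE_mem_of_ex hn ht h1 h2 hν hν' hd₁ hd₂ hN hρ₁ hρ₂ hc hz ?_
  -- parities
  have cast1 : ∀ x : ℤ, (x = 1 ∨ x = -1) → (x : ZMod 2) = 1 := by
    rintro x (rfl | rfl)
    · simp
    · decide
  have cν := cast1 ν hν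
  have cd₁ := cast1 d₁ hd₁
  have cd₂ := cast1 d₂ hd₂
  have m1 := congrArg (Int.cast : ℤ → ZMod 2) hN
  have m2 := congrArg (Int.cast : ℤ → ZMod 2) hρ₁
  have m3 := congrArg (Int.cast : ℤ → ZMod 2) hρ₂
  have m4 := congrArg (Int.cast : ℤ → ZMod 2) hk'
  have neg : ∀ x : ZMod 2, -x = x := by decide
  push_cast [cν, cd₁, cd₂] at m1 m2 m3 m4
  simp only [one_mul, sub_eq_add_neg, neg] at m1 m2 m3 m4
  have hp := parity_aux n B C δ t ρ₁ ρ₂ s₁ s₂ k c m1 m2 m3 m4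
  set y₁ : ℤ := δ * k + t ^ 2 * C * s₂ + c with hy₁
  set y₂ : ℤ := (ν * s₁ - (2 * δ + t * B) * s₂) * t + ν * ρ₁ * t with hy₂
  have e1 : (y₁ : ZMod 2) = δ * k + t ^ 2 * C * s₂ + c := by rw [hy₁]; push_cast; ring
  have two : (2 : ZMod 2) = 0 := by decide
  have e2 : (y₂ : ZMod 2) = (s₁ + t * B * s₂) * t + ρ₁ * t := by
    rw [hy₂]
    push_cast [cν]
    simp only [two, zero_mul, zero_add, one_mul, sub_eq_add_neg, neg]
  rw [← e1, ← e2] at hp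
  have hq : ∀ a : ℤ × ℤ, (qf n B C a : ZMod 2) = n * a.1 ^ 2 + B * (a.1 * a.2) + C * a.2 ^ 2 := by
    intro a
    simp only [qf]
    push_cast
    ring
  have b10 : (n : ZMod 2) = 1 → ex n B C (1, 0) ∈ W n B C := fun h =>
    ex_odd_mem' (by rw [hq]; simp [h])
  have b01 : (C : ZMod 2) = 1 → ex n B C (0, 1) ∈ W n B C := fun h =>
    ex_odd_mem' (by rw [hq]; simp [h])
  have b11 : (n + B + C : ZMod 2) = 1 → ex n B C (1, 1) ∈ W n B C := fun h =>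
    ex_odd_mem' (by rw [hq]; simp; exact h)
  show ex n B C (y₁, y₂) ∈ W n B C
  have self : ∀ x : ZMod 2, x + x = 0 := by decide
  rcases hp with ⟨p1, p2⟩ | ⟨p1, p2, p3⟩ | ⟨p1, p2, p3⟩ | ⟨p1, p2, p3⟩
  · obtain ⟨a, ha⟩ := cast_two_eq_zero p1
    obtain ⟨b, hb⟩ := cast_two_eq_zero p2
    have : ((y₁, y₂) : ℤ × ℤ) = (a, b) + (a, b) := by rw [ha, hb]; rfl
    rw [this]
    exact ex_two_mem _
  · obtain ⟨a, ha⟩ := cast_two_eq_one p1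
    obtain ⟨b, hb⟩ := cast_two_eq_zero p2
    rcases p3 with p3 | ⟨p3, p4⟩
    · refine ex_mem_of_sub (b := (1, 0)) (c := (a, b)) ?_ (b10 p3)
      rw [ha, hb]
      ext <;> simp
      ring
    · refine ex_mem_of_sub (b := (0, 1) + (1, 1)) (c := (a, b - 1)) ?_ ?_
      · rw [ha, hb]
        ext <;> simp <;> ring
      · rw [ex_add]
        exact mul_mem (b01 p3) (b11 (by rw [p4, self, p3, zero_add]))
  · obtain ⟨a, ha⟩ := cast_two_eq_zero p1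
    obtain ⟨b, hb⟩ := cast_two_eq_one p2
    rcases p3 with p3 | ⟨p3, p4⟩
    · refine ex_mem_of_sub (b := (0, 1)) (c := (a, b)) ?_ (b01 p3)
      rw [ha, hb]
      ext <;> simp
      ring
    · refine ex_mem_of_sub (b := (1, 0) + (1, 1)) (c := (a - 1, b)) ?_ ?_
      · rw [ha, hb]
        ext <;> simp <;> ring
      · rw [ex_add]
        exact mul_mem (b10 p3) (b11 (by rw [add_assoc, p4, self, p3, add_zero]))
  · obtain ⟨a, ha⟩ := cast_two_eq_one p1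
    obtain ⟨b, hb⟩ := cast_two_eq_one p2
    rcases p3 with p3 | ⟨p3, p4⟩
    · refine ex_mem_of_sub (b := (1, 1)) (c := (a, b)) ?_ (b11 p3)
      rw [ha, hb]
      ext <;> simp <;> ring
    · refine ex_mem_of_sub (b := (1, 0) + (0, 1)) (c := (a, b)) ?_ ?_
      · rw [ha, hb]
        ext <;> simp <;> ring
      · rw [ex_add]
        exact mul_mem (b10 p3) (b01 p4)

end Pool.Agent.Mukai
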