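import Mathlib

/-!
# The algebraic Mukai lattice of a K3 surface of Picard number two: definitions

The Néron-Severi lattice is `ℤ²` with an even form; half of the square is the binary form
`n u² + B u w + C w²`. The algebraic Mukai lattice is `ℤ ⊕ ℤ ⊕ ℤ²`, half of the square of
`(r, s, D)` is `D²/2 - r s`.
-/

namespace Pool.Agent.Mukai

/-- half of the square of `a ∈ ℤ²` -/
def qf (n B C : ℤ) (a : ℤ × ℤ) : ℤ := n * a.1 ^ 2 + B * (a.1 * a.2) + C * a.2 ^ 2

/-- the intersection form of `ℤ²` -/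
def pf (n B C : ℤ) (a b : ℤ × ℤ) : ℤ :=
  2 * n * (a.1 * b.1) + B * (a.1 * b.2 + a.2 * b.1) + 2 * C * (a.2 * b.2)

/-- the algebraic Mukai lattice, with elements `(r, s, D)` -/
abbrev Mu : Type := ℤ × ℤ × (ℤ × ℤ)

/-- half of the square of an element of the Mukai lattice -/
def Qf (n B C : ℤ) (v : Mu) : ℤ := qf n B C v.2.2 - v.1 * v.2.1

/-- the Mukai pairing -/
def Pf (n B C : ℤ) (v w : Mu) : ℤ := pf n B C v.2.2 w.2.2 - v.1 * w.2.1 - v.2.1 * w.1

/-- the reflection in a vector `v` with `v² = ±2`: `x ↦ x - (2 (x, v) / (v, v)) v` -/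
def refl (n B C : ℤ) (v x : Mu) : Mu := x - (Qf n B C v * Pf n B C x v) • v

/-- `g` is a product of reflections in vectors `v` with `v² = ±2` -/
def IsProd (n B C : ℤ) (g : Mu → Mu) : Prop :=
  ∃ l : List Mu, (∀ v ∈ l, Qf n B C v = 1 ∨ Qf n B C v = -1) ∧
    ∀ x, g x = l.foldr (fun v y => refl n B C v y) x

/-- the map `ν (id ⊕ f)` of the Mukai lattice -/
def lift (ν : ℤ) (f : ℤ × ℤ →+ ℤ × ℤ) (x : Mu) : Mu := (ν * x.1, ν * x.2.1, ν • f x.2.2)

/-- `f` acts as multiplication by `ν` on the discriminant group `L*/L` of `L = ℤ²`: for every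
linear form `φ` the form `φ ∘ f - ν φ` is the pairing with an element of `L` -/
def DiscAct (n B C ν : ℤ) (f : ℤ × ℤ →+ ℤ × ℤ) : Prop :=
  ∀ φ : ℤ × ℤ →+ ℤ, ∃ a : ℤ × ℤ, ∀ x, φ (f x) - ν * φ x = pf n B C a x

end Pool.Agent.Mukai
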