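import Pool.Agent.Work.MP_1e087a_ag.Struct

/-!
# The map `ν (id ⊕ f)`
-/

namespace Pool.Agent.Mukai

variable {n B C : ℤ}

/-- the sign on the hyperbolic plane -/
theorem sign_mem {σ : ℤ} (hσ : σ = 1 ∨ σ = -1) :
    ∃ g ∈ W n B C, ∀ x, g x = (σ * x.1, σ * x.2.1, x.2.2) := by
  rcases hσ with rfl | rfl
  · exact ⟨1, one_mem _, fun x => by simp⟩
  · refine ⟨T n B C * T' n B C, mul_mem T_mem T'_mem, fun x => ?_⟩
    rw [LinearEquiv.mul_apply, T_apply, T'_apply]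
    simp

theorem lift_apply (ν : ℤ) (f : ℤ × ℤ →+ ℤ × ℤ) (x : Mu) :
    lift ν f x = (ν * x.1, ν * x.2.1, ν • f x.2.2) := rfl

/-- the structure of the lift: it is in the group generated by the reflections, or it is a
multiplication by the square of a unit -/
theorem lift_kind {ν : ℤ} (hν : ν = 1 ∨ ν = -1) {f : ℤ × ℤ →+ ℤ × ℤ}
    (hΔ0 : 0 < B ^ 2 - 4 * n * C) (hΔs : ¬ IsSquare (B ^ 2 - 4 * n * C))
    (hf : ∀ x, qf n B C (f x) = qf n B C x) (hd : DiscAct n B C ν f) :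
    (∃ g ∈ W n B C, ∀ x, g x = lift ν f x) ∨
    (∃ (δ t μ : ℤ) (hμ : μ = 1 ∨ μ = -1) (hμ' : μ * μ = 1)
      (hN : δ * (δ + t * B) + t ^ 2 * n * C = μ) (g : Au), g ∈ W n B C ∧ t ≠ 0 ∧
      Commute g (mE n B C δ t μ hμ' hN) ∧
      ∀ x, (g * mE n B C δ t μ hμ' hN) x = lift ν f x) := by
  have hν' : ν * ν = 1 := by rcases hν with rfl | rfl <;> norm_num
  rcases structure_f hν hΔ0 hΔs hf hd with h | ⟨w, c₀, hc, hq, h⟩ | ⟨σ, δ, t, hσ, ht, hN, h⟩
  · left
    obtain ⟨g, hg, hgx⟩ := sign_mem (n := n) (B := B) (C := C) hν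
    refine ⟨g, hg, fun x => ?_⟩
    rw [hgx, lift_apply, h, smul_smul, hν', one_smul]
  · left
    obtain ⟨g, hg, hgx⟩ := sign_mem (n := n) (B := B) (C := C) hν
    have hQ : Qf n B C (0, 0, w) = -(ν * c₀) := by
      simp only [Qf, hq]
      ring
    have hu : Unit2 n B C (0, 0, w) := by
      unfold Unit2
      rw [hQ]
      rcases hν with rfl | rfl <;> rcases hc with rfl | rfl <;> norm_num
    refine ⟨g * R n B C _ hu, mul_mem hg (R_mem _), fun x => ?_⟩
    rw [LinearEquiv.mul_apply, hgx, lift_apply, h, R_apply, refl, hQ]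
    have hP : Pf n B C x (0, 0, w) = pf n B C w x.2.2 := by
      simp only [Pf, pf_comm w]
      ring
    rw [hP]
    generalize pf n B C w x.2.2 = p
    obtain ⟨x1, x2, x3, x4⟩ := x
    obtain ⟨w1, w2⟩ := w
    ext
    · simp
    · simp
    · simp
      linear_combination (-x3) * hν'
    · simp
      linear_combination (-x4) * hν'
  · right
    have hμ : σ * ν = 1 ∨ σ * ν = -1 := by
      rcases hν with rfl | rfl <;> rcases hσ with rfl | rfl <;> norm_num
    have hσ' : σ * σ = 1 := by rcases hσ with rfl | rfl <;> norm_num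
    have hμ' : (σ * ν) * (σ * ν) = 1 := by linear_combination (ν * ν) * hσ' + hν'
    obtain ⟨g, hg, hgx⟩ := sign_mem (n := n) (B := B) (C := C) hσ
    refine ⟨δ, t, σ * ν, hμ, hμ', hN, g, hg, ht, ?_, fun x => ?_⟩
    · show g * mE n B C δ t (σ * ν) hμ' hN = mE n B C δ t (σ * ν) hμ' hN * g
      apply LinearEquiv.ext
      intro x
      rw [LinearEquiv.mul_apply, LinearEquiv.mul_apply, hgx, mE_apply, mE_apply, hgx]
      ext
      · simp
        ring
      · simp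
        ring
      · simp
      · simp
    · rw [LinearEquiv.mul_apply, hgx, mE_apply, lift_apply, h]
      ext
      · simp
        linear_combination (ν * x.1) * hσ'
      · simp
        linear_combination (ν * x.2.1) * hσ'
      · simp
        ring
      · simp
        ring

/-- the value of the form at the first basis vector is good -/
theorem lift_good {ν : ℤ} (hν : ν = 1 ∨ ν = -1) {f : ℤ × ℤ →+ ℤ × ℤ}
    (hΔ0 : 0 < B ^ 2 - 4 * n * C) (hΔs : ¬ IsSquare (B ^ 2 - 4 * n * C)) (hn : n ≠ 0)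
    (hg : goodN n.natAbs = true)
    (hf : ∀ x, qf n B C (f x) = qf n B C x) (hd : DiscAct n B C ν f) :
    IsProd n B C (lift ν f) := by
  rcases lift_kind hν hΔ0 hΔs hf hd with ⟨g, hgW, h⟩ | ⟨δ, t, μ, hμ, hμ', hN, g, hgW, ht, _, h⟩
  · obtain ⟨l, h1, h2⟩ := isProd_of_mem hgW
    exact ⟨l, h1, fun x => by rw [← h, h2]⟩
  · obtain ⟨l, h1, h2⟩ := isProd_of_mem (mul_mem hgW (mE_good hn hμ hμ' hN hg ht))
    exact ⟨l, h1, fun x => by rw [← h, h2]⟩

theorem pow_apply_iterate {g : Au} {F : Mu → Mu} (h : ∀ x, g x = F x) (k : ℕ) (x : Mu) :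
    (g ^ k) x = F^[k] x := by
  induction k generalizing x with
  | zero => rfl
  | succ k ih =>
    rw [pow_succ, LinearEquiv.mul_apply, ih, Function.iterate_succ_apply, h]

/-- powers -/
theorem lift_pow {ν : ℤ} (hν : ν = 1 ∨ ν = -1) {f : ℤ × ℤ →+ ℤ × ℤ}
    (hΔ0 : 0 < B ^ 2 - 4 * n * C) (hΔs : ¬ IsSquare (B ^ 2 - 4 * n * C)) (hn : n ≠ 0)
    (hf : ∀ x, qf n B C (f x) = qf n B C x) (hd : DiscAct n B C ν f) :
    IsProd n B C ((lift ν f)^[Nat.totient n.natAbs]) := by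
  rcases lift_kind hν hΔ0 hΔs hf hd with ⟨g, hgW, h⟩ | ⟨δ, t, μ, hμ, hμ', hN, g, hgW, ht, hc, h⟩
  · obtain ⟨l, h1, h2⟩ := isProd_of_mem (pow_mem hgW (Nat.totient n.natAbs))
    exact ⟨l, h1, fun x => by rw [← pow_apply_iterate h, h2]⟩
  · have h3 : (g * mE n B C δ t μ hμ' hN) ^ (Nat.totient n.natAbs) ∈ W n B C := by
      rw [hc.mul_pow]
      exact mul_mem (pow_mem hgW _) (mE_pow_mem hn hμ hμ' hN)
    obtain ⟨l, h1, h2⟩ := isProd_of_mem h3
    exact ⟨l, h1, fun x => by rw [← pow_apply_iterate h, h2]⟩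

/-! ### Change of basis -/

/-- the linear map with the columns `a`, `b` -/
def cb (a b x : ℤ × ℤ) : ℤ × ℤ := (x.1 * a.1 + x.2 * b.1, x.1 * a.2 + x.2 * b.2)

theorem cb_inv {a b : ℤ × ℤ} (h : a.1 * b.2 - a.2 * b.1 = 1) (x : ℤ × ℤ) :
    cb a b (cb (b.2, -a.2) (-b.1, a.1) x) = x := by
  obtain ⟨x1, x2⟩ := x
  simp only [cb]
  ext
  · linear_combination x1 * h
  · linear_combination x2 * h

theorem cb_inv' {a b : ℤ × ℤ} (h : a.1 * b.2 - a.2 * b.1 = 1) (x : ℤ × ℤ) :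
    cb (b.2, -a.2) (-b.1, a.1) (cb a b x) = x := by
  obtain ⟨x1, x2⟩ := x
  simp only [cb]
  ext
  · linear_combination x1 * h
  · linear_combination x2 * h

/-- the change of basis -/
def cbE (a b : ℤ × ℤ) (h : a.1 * b.2 - a.2 * b.1 = 1) : (ℤ × ℤ) ≃+ (ℤ × ℤ) where
  toFun := cb a b
  invFun := cb (b.2, -a.2) (-b.1, a.1)
  left_inv := cb_inv' h
  right_inv := cb_inv h
  map_add' := by
    intro x y
    simp only [cb]
    ext <;> simp <;> ring

theorem qf_cb (a b x : ℤ × ℤ) : qf n B C (cb a b x) =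
    qf (qf n B C a) (pf n B C a b) (qf n B C b) x := by
  simp only [qf, pf, cb]
  ring

theorem pf_cb (a b x y : ℤ × ℤ) : pf n B C (cb a b x) (cb a b y) =
    pf (qf n B C a) (pf n B C a b) (qf n B C b) x y := by
  simp only [qf, pf, cb]
  ring

theorem disc_cb {a b : ℤ × ℤ} (h : a.1 * b.2 - a.2 * b.1 = 1) :
    pf n B C a b ^ 2 - 4 * qf n B C a * qf n B C b = B ^ 2 - 4 * n * C := by
  simp only [qf, pf]
  linear_combination (B ^ 2 - 4 * n * C) * (a.1 * b.2 - a.2 * b.1 + 1) * h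

/-- the change of basis of a product of reflections -/
theorem isProd_cb {a b : ℤ × ℤ} (h : a.1 * b.2 - a.2 * b.1 = 1) {g g' : Mu → Mu}
    (hg : ∀ x : Mu, g (x.1, x.2.1, cb a b x.2.2) =
      ((g' x).1, (g' x).2.1, cb a b (g' x).2.2))
    (hp : IsProd (qf n B C a) (pf n B C a b) (qf n B C b) g') : IsProd n B C g := by
  obtain ⟨l, h1, h2⟩ := hp
  set J : Mu → Mu := fun x => (x.1, x.2.1, cb a b x.2.2) with hJ
  have hQ : ∀ v, Qf n B C (J v) = Qf (qf n B C a) (pf n B C a b) (qf n B C b) v := by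
    intro v
    simp only [hJ, Qf, qf_cb]
  have hP : ∀ v w, Pf n B C (J v) (J w) =
      Pf (qf n B C a) (pf n B C a b) (qf n B C b) v w := by
    intro v w
    simp only [hJ, Pf, pf_cb]
  have hR : ∀ v x, J (refl (qf n B C a) (pf n B C a b) (qf n B C b) v x) =
      refl n B C (J v) (J x) := by
    intro v x
    simp only [refl, hQ, hP]
    simp only [hJ, cb]
    ext <;> simp <;> ring
  refine ⟨l.map J, ?_, ?_⟩
  · intro v hv
    obtain ⟨w, hw, rfl⟩ := List.mem_map.1 hv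
    rw [hQ]
    exact h1 w hw
  · intro x
    -- `x = J y`
    obtain ⟨y, rfl⟩ : ∃ y, J y = x := ⟨(x.1, x.2.1, cb (b.2, -a.2) (-b.1, a.1) x.2.2), by
      simp only [hJ]
      rw [cb_inv h]⟩
    have e1 : g (J y) = J (g' y) := hg y
    rw [e1, h2]
    clear hg h2 e1 h1
    induction l with
    | nil => rfl
    | cons v l ih =>
      simp only [List.foldr_cons, List.map_cons]
      rw [hR, ih]

/-- primitive vectors -/
def Prim (a : ℤ × ℤ) : Prop := IsCoprime a.1 a.2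

theorem Prim.exists {a : ℤ × ℤ} (h : Prim a) : ∃ b : ℤ × ℤ, a.1 * b.2 - a.2 * b.1 = 1 := by
  obtain ⟨u, v, huv⟩ := h
  exact ⟨(-v, u), by linear_combination huv⟩

/-- transport of the hypotheses -/
theorem transport {ν : ℤ} {f : ℤ × ℤ →+ ℤ × ℤ} {a b : ℤ × ℤ}
    (h : a.1 * b.2 - a.2 * b.1 = 1)
    (hf : ∀ x, qf n B C (f x) = qf n B C x) (hd : DiscAct n B C ν f) :
    ∃ f' : ℤ × ℤ →+ ℤ × ℤ, (∀ x, cb a b (f' x) = f (cb a b x)) ∧
      (∀ x, qf (qf n B C a) (pf n B C a b) (qf n B C b) (f' x) =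
        qf (qf n B C a) (pf n B C a b) (qf n B C b) x) ∧
      DiscAct (qf n B C a) (pf n B C a b) (qf n B C b) ν f' := by
  set P := cbE a b h with hP
  have hPx : ∀ x, P x = cb a b x := fun x => rfl
  refine ⟨(P.symm.toAddMonoidHom.comp f).comp P.toAddMonoidHom, ?_, ?_, ?_⟩
  · intro x
    rw [← hPx, ← hPx]
    exact P.apply_symm_apply _
  · intro x
    rw [← qf_cb, ← qf_cb]
    have : cb a b (((P.symm.toAddMonoidHom.comp f).comp P.toAddMonoidHom) x) = f (cb a b x) := by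
      rw [← hPx, ← hPx]
      exact P.apply_symm_apply _
    rw [this, hf]
  · intro φ
    obtain ⟨c, hc⟩ := hd (φ.comp P.symm.toAddMonoidHom)
    refine ⟨P.symm c, fun x => ?_⟩
    have h1 := hc (P x)
    have h2 : (φ.comp P.symm.toAddMonoidHom) (P x) = φ x := by
      show φ (P.symm (P x)) = φ x
      rw [P.symm_apply_apply]
    rw [h2] at h1
    have h3 : φ (((P.symm.toAddMonoidHom.comp f).comp P.toAddMonoidHom) x) =
      (φ.comp P.symm.toAddMonoidHom) (f (P x)) := rfl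
    rw [h3, h1, ← pf_cb, ← hPx, ← hPx, P.apply_symm_apply]

theorem lift_cb {ν : ℤ} {f f' : ℤ × ℤ →+ ℤ × ℤ} {a b : ℤ × ℤ}
    (h : ∀ x, cb a b (f' x) = f (cb a b x)) (x : Mu) :
    lift ν f (x.1, x.2.1, cb a b x.2.2) =
      ((lift ν f' x).1, (lift ν f' x).2.1, cb a b (lift ν f' x).2.2) := by
  rw [lift_apply, lift_apply, ← h]
  simp only [cb]
  ext <;> simp <;> ring

theorem lift_iterate_cb {ν : ℤ} {f f' : ℤ × ℤ →+ ℤ × ℤ} {a b : ℤ × ℤ}
    (h : ∀ x, cb a b (f' x) = f (cb a b x)) (k : ℕ) (x : Mu) :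
    (lift ν f)^[k] (x.1, x.2.1, cb a b x.2.2) =
      (((lift ν f')^[k] x).1, ((lift ν f')^[k] x).2.1, cb a b ((lift ν f')^[k] x).2.2) := by
  induction k generalizing x with
  | zero => rfl
  | succ k ih =>
    rw [Function.iterate_succ_apply, Function.iterate_succ_apply, lift_cb h, ih]

/-- the form takes a good value at a primitive vector -/
theorem lift_good' {ν : ℤ} (hν : ν = 1 ∨ ν = -1) {f : ℤ × ℤ →+ ℤ × ℤ}
    (hΔ0 : 0 < B ^ 2 - 4 * n * C) (hΔs : ¬ IsSquare (B ^ 2 - 4 * n * C))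
    (hf : ∀ x, qf n B C (f x) = qf n B C x) (hd : DiscAct n B C ν f)
    {a : ℤ × ℤ} (ha : Prim a) (hg : (qf n B C a).natAbs ∈ goodList) :
    IsProd n B C (lift ν f) := by
  obtain ⟨b, hb⟩ := ha.exists
  obtain ⟨f', h1, h2, h3⟩ := transport hb hf hd
  refine isProd_cb hb (g' := lift ν f') (lift_cb h1) ?_
  have hn : qf n B C a ≠ 0 := by
    intro h
    rw [h] at hg
    revert hg
    decide
  refine lift_good hν ?_ ?_ hn (goodList_good _ hg) h2 h3
  · rw [disc_cb hb]; exact hΔ0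
  · rw [disc_cb hb]; exact hΔs

/-- powers -/
theorem lift_pow' {ν : ℤ} (hν : ν = 1 ∨ ν = -1) {f : ℤ × ℤ →+ ℤ × ℤ}
    (hΔ0 : 0 < B ^ 2 - 4 * n * C) (hΔs : ¬ IsSquare (B ^ 2 - 4 * n * C))
    (hf : ∀ x, qf n B C (f x) = qf n B C x) (hd : DiscAct n B C ν f)
    {a : ℤ × ℤ} (ha : Prim a) (hn : qf n B C a ≠ 0) :
    IsProd n B C ((lift ν f)^[Nat.totient (qf n B C a).natAbs]) := by
  obtain ⟨b, hb⟩ := ha.exists
  obtain ⟨f', h1, h2, h3⟩ := transport hb hf hd
  refine isProd_cb hb (g' := (lift ν f')^[Nat.totient (qf n B C a).natAbs])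
    (lift_iterate_cb h1 _) ?_
  refine lift_pow hν ?_ ?_ hn h2 h3
  · rw [disc_cb hb]; exact hΔ0
  · rw [disc_cb hb]; exact hΔs

end Pool.Agent.Mukai
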