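import Pool.Agent.Work.MP_1e087a_ag.Crit

/-!
# The good values
-/

namespace Pool.Agent.Mukai

/-- the divisors of `N + 1` or `N - 1` in `1, …, N + 1` -/
def dvs (N : ℕ) : List ℕ :=
  (List.range (N + 2)).filter fun r => (N + 1) % r == 0 || (r != 0 && (N - 1) % r == 0)

/-- every residue prime to `N` is, up to sign, a quotient of two divisors of `N ± 1` -/
def goodN (N : ℕ) : Bool :=
  (List.range N).all fun δ => Nat.gcd δ N != 1 ||
    (dvs N).any fun r₁ => (dvs N).any fun r₂ =>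
      (r₁ * δ) % N == r₂ % N || (r₁ * δ + r₂) % N == 0

/-- the good values -/
def goodList : List ℕ := [1, 2, 3, 4, 5, 6, 7, 8, 9, 10, 11, 13, 14, 15, 16, 17, 19, 20, 21, 22, 23,
  25, 26, 27, 29, 31, 34, 35, 39, 41, 49, 55, 71]

theorem goodList_good : ∀ N ∈ goodList, goodN N = true := by
  decide +kernel

theorem mem_dvs {N r : ℕ} (h : r ∈ dvs N) : r ≠ 0 ∧ (r ∣ N + 1 ∨ (r ∣ N - 1)) := by
  unfold dvs at h
  rw [List.mem_filter] at h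
  obtain ⟨_, h2⟩ := h
  simp only [Bool.or_eq_true, beq_iff_eq, Bool.and_eq_true, bne_iff_ne, ne_eq] at h2
  rcases h2 with h2 | ⟨h2, h3⟩
  · refine ⟨?_, Or.inl (Nat.dvd_of_mod_eq_zero h2)⟩
    rintro rfl
    simp at h2
  · exact ⟨h2, Or.inr (Nat.dvd_of_mod_eq_zero h3)⟩

/-- the sign form of the divisibility -/
theorem mem_dvs_int {n : ℤ} {r : ℕ} (hn : n ≠ 0) (h : r ∈ dvs n.natAbs) :
    (r : ℤ) ≠ 0 ∧ ∃ d s : ℤ, (d = 1 ∨ d = -1) ∧ (r : ℤ) * s = d * n + 1 := by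
  obtain ⟨h0, h1⟩ := mem_dvs h
  refine ⟨by exact_mod_cast h0, ?_⟩
  have hN : 1 ≤ n.natAbs := Int.natAbs_pos.2 hn
  rcases h1 with ⟨s, hs⟩ | ⟨s, hs⟩
  · have hs' : ((n.natAbs : ℤ) + 1) = r * s := by exact_mod_cast hs
    rcases Int.natAbs_eq n with e | e
    · exact ⟨1, s, Or.inl rfl, by rw [← hs', ← e]; ring⟩
    · exact ⟨-1, s, Or.inr rfl, by rw [← hs']; linarith⟩
  · have hs' : ((n.natAbs : ℤ) - 1) = r * s := by
      have : ((n.natAbs - 1 : ℕ) : ℤ) = r * s := by exact_mod_cast hs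
      rw [← this]
      push_cast [Nat.cast_sub hN]
      ring
    rcases Int.natAbs_eq n with e | e
    · exact ⟨-1, -s, Or.inr rfl, by rw [mul_neg, ← hs', ← e]; ring⟩
    · exact ⟨1, -s, Or.inl rfl, by rw [mul_neg, ← hs']; linarith⟩

theorem good_spec {n δ ν : ℤ} (hn : n ≠ 0) (hν : ν = 1 ∨ ν = -1) (hg : goodN n.natAbs = true)
    (hc : IsCoprime δ n) : ∃ ρ₁ ρ₂ s₁ s₂ d₁ d₂ c : ℤ, ρ₁ ≠ 0 ∧ ρ₂ ≠ 0 ∧
      (d₁ = 1 ∨ d₁ = -1) ∧ (d₂ = 1 ∨ d₂ = -1) ∧ ρ₁ * s₁ = d₁ * (ν * n) + 1 ∧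
      ρ₂ * s₂ = d₂ * n + 1 ∧ n * c = ν * ρ₁ * δ - ρ₂ := by
  have hN : 0 < n.natAbs := Int.natAbs_pos.2 hn
  have hNZ : (0 : ℤ) < n.natAbs := by exact_mod_cast hN
  -- the residue
  obtain ⟨k, hk⟩ : ∃ k : ℕ, (k : ℤ) = δ % n.natAbs :=
    ⟨(δ % n.natAbs).toNat, Int.toNat_of_nonneg (Int.emod_nonneg _ hNZ.ne')⟩
  have hkN : k < n.natAbs := by
    have := Int.emod_lt_of_pos δ hNZ
    rw [← hk] at this
    exact_mod_cast this
  obtain ⟨e, he⟩ : ∃ e : ℤ, δ = k + n.natAbs * e :=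
    ⟨δ / n.natAbs, by rw [hk]; exact (Int.emod_add_mul_ediv δ _).symm⟩
  have hkc : Nat.gcd k n.natAbs = 1 := by
    have h1 : IsCoprime δ (n.natAbs : ℤ) := by
      rcases Int.natAbs_eq n with h | h
      · rw [← h]; exact hc
      · have h2 : (n.natAbs : ℤ) = -n := by linarith
        rw [h2]; exact hc.neg_right
    have h2 : IsCoprime (k : ℤ) (n.natAbs : ℤ) := by
      have h3 : (k : ℤ) = δ + n.natAbs * (-e) := by rw [he]; ring
      rw [h3]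
      exact h1.add_mul_left_left _
    exact Nat.isCoprime_iff_coprime.1 h2
  unfold goodN at hg
  rw [List.all_eq_true] at hg
  have h1 := hg k (List.mem_range.2 hkN)
  simp only [hkc, bne_self_eq_false, Bool.false_or, List.any_eq_true, Bool.or_eq_true,
    beq_iff_eq] at h1
  obtain ⟨r₁, hr₁, r₂, hr₂, h⟩ := h1
  obtain ⟨a0, d₁, s₁, hd₁, e₁⟩ := mem_dvs_int hn hr₁
  obtain ⟨b0, d₂, s₂, hd₂, e₂⟩ := mem_dvs_int hn hr₂
  have hdvd : ∃ κ : ℤ, (κ = 1 ∨ κ = -1) ∧ n ∣ (r₁ : ℤ) * k - κ * r₂ := by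
    rcases h with h | h
    · refine ⟨1, Or.inl rfl, ?_⟩
      rw [one_mul, ← Int.natAbs_dvd]
      have h2 : ((r₂ : ℤ)) ≡ (r₁ : ℤ) * k [ZMOD n.natAbs] := by
        have h3 : r₂ ≡ r₁ * k [MOD n.natAbs] := h.symm
        have h4 := (Int.natCast_modEq_iff).2 h3
        push_cast at h4 ⊢
        exact h4
      exact h2.dvd
    · refine ⟨-1, Or.inr rfl, ?_⟩
      rw [← Int.natAbs_dvd]
      have h3 : (n.natAbs : ℤ) ∣ ((r₁ * k + r₂ : ℕ) : ℤ) :=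
        Int.natCast_dvd_natCast.2 (Nat.dvd_of_mod_eq_zero h)
      push_cast at h3
      have h4 : (r₁ : ℤ) * k - -1 * r₂ = r₁ * k + r₂ := by ring
      rw [h4]
      push_cast
      exact h3
  obtain ⟨κ, hκ, w, hw⟩ := hdvd
  obtain ⟨σ, hσ, hσ'⟩ : ∃ σ : ℤ, (σ = 1 ∨ σ = -1) ∧ (n.natAbs : ℤ) = σ * n := by
    rcases Int.natAbs_eq n with h | h
    · exact ⟨1, Or.inl rfl, by rw [one_mul, ← h]⟩
    · exact ⟨-1, Or.inr rfl, by linarith⟩
  have hνν : ν * ν = 1 := by rcases hν with rfl | rfl <;> norm_num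
  have hκκ : κ * κ = 1 := by rcases hκ with rfl | rfl <;> norm_num
  refine ⟨r₁, ν * κ * r₂, s₁, ν * κ * s₂, d₁ * ν, d₂, ν * w + ν * r₁ * σ * e, a0, ?_, ?_, hd₂, ?_,
    ?_, ?_⟩
  · have h1 : ν ≠ 0 := by rcases hν with rfl | rfl <;> norm_num
    have h2 : κ ≠ 0 := by rcases hκ with rfl | rfl <;> norm_num
    exact mul_ne_zero (mul_ne_zero h1 h2) b0
  · rcases hd₁ with rfl | rfl <;> rcases hν with rfl | rfl <;> norm_num
  · linear_combination e₁ - d₁ * n * hνν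
  · linear_combination e₂ + (r₂ * s₂ * (κ * κ)) * hνν + (r₂ * s₂) * hκκ
  · linear_combination (-ν) * hw + (-ν * r₁) * he + (-ν * r₁ * e) * hσ'

end Pool.Agent.Mukai
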