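import Pool.Agent.Work.MP_1e087a_ag.Main1

/-!
# The main identity
-/

namespace Pool.Agent.Mukai

variable {n B C : ℤ}

/-- the two sides of the identity agree -/
theorem ident {δ t ν ρ₁ ρ₂ s₁ s₂ d₁ d₂ c z : ℤ} (hn : n ≠ 0) (ht : t ≠ 0) (h1 : ρ₁ ≠ 0)
    (h2 : ρ₂ ≠ 0) (hν : ν = 1 ∨ ν = -1) (hd₁ : d₁ = 1 ∨ d₁ = -1) (hd₂ : d₂ = 1 ∨ d₂ = -1)
    (hN : δ * (δ + t * B) + t ^ 2 * n * C = ν) (hρ₁ : ρ₁ * s₁ = d₁ * (ν * n) + 1)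
    (hρ₂ : ρ₂ * s₂ = d₂ * n + 1) (hc : n * c = ν * ρ₁ * δ - ρ₂)
    (hz : n * z = (ν * s₁ - (2 * δ + t * B) * s₂) * δ + ν * s₂) (r e u w : ℤ) :
    let P₁ := 2 * n * (δ * u) + B * (δ * w + t * n * u) + 2 * C * (t * n * w)
    let F₁ := ρ₁ ^ 2 * r + ρ₁ * P₁ + ν * n * e
    let S₁ := ν * n * r + d₁ * s₁ * P₁ + s₁ ^ 2 * e
    let K₁ := d₁ * ρ₁ * r + s₁ * e + d₁ * P₁
    let c' := ν * ρ₁ * t
    let z' := (ν * s₁ - (2 * δ + t * B) * s₂) * t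
    let e' := e + (2 * n * (c * u) + B * (c * w + c' * u) + 2 * C * (c' * w)) +
      r * (n * c ^ 2 + B * (c * c') + C * c' ^ 2)
    let P₂ := 2 * n * (u + r * c) + B * (w + r * c')
    let K₂ := d₂ * ρ₂ * r + s₂ * e' + d₂ * P₂
    let U := u + r * c + K₂
    let V := w + r * c'
    ν * (ρ₂ ^ 2 * r + ρ₂ * P₂ + n * e') = F₁ ∧
    ν * (n * r + d₂ * s₂ * P₂ + s₂ ^ 2 * e') =
      S₁ - (2 * n * (z * (u + K₁ * δ)) + B * (z * (w + K₁ * (t * n)) + z' * (u + K₁ * δ)) +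
        2 * C * (z' * (w + K₁ * (t * n)))) + F₁ * (n * z ^ 2 + B * (z * z') + C * z' ^ 2) ∧
    ν * (δ * (δ * U - t * C * V) - t * C * (t * n * U + (δ + t * B) * V)) =
      u + K₁ * δ - F₁ * z ∧
    ν * (t * n * (δ * U - t * C * V) + (δ + t * B) * (t * n * U + (δ + t * B) * V)) =
      w + K₁ * (t * n) - F₁ * z' := by
  intro P₁ F₁ S₁ K₁ c' z' e' P₂ K₂ U V
  have hnQ : (n : ℚ) ≠ 0 := by exact_mod_cast hn
  have htQ : (t : ℚ) ≠ 0 := by exact_mod_cast ht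
  have h1Q : (ρ₁ : ℚ) ≠ 0 := by exact_mod_cast h1
  have h2Q : (ρ₂ : ℚ) ≠ 0 := by exact_mod_cast h2
  have hCQ : (C : ℚ) = (ν - δ * (δ + t * B)) / (t ^ 2 * n) := by
    rw [eq_div_iff (by positivity)]
    have : ((δ * (δ + t * B) + t ^ 2 * n * C : ℤ) : ℚ) = ν := by exact_mod_cast hN
    push_cast at this
    linear_combination this
  have hcQ : (c : ℚ) = (ν * ρ₁ * δ - ρ₂) / n := by
    rw [eq_div_iff hnQ]
    have : ((n * c : ℤ) : ℚ) = ((ν * ρ₁ * δ - ρ₂ : ℤ) : ℚ) := by exact_mod_cast hc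
    push_cast at this
    linear_combination this
  have hzQ : (z : ℚ) = ((ν * s₁ - (2 * δ + t * B) * s₂) * δ + ν * s₂) / n := by
    rw [eq_div_iff hnQ]
    have : ((n * z : ℤ) : ℚ) = (((ν * s₁ - (2 * δ + t * B) * s₂) * δ + ν * s₂ : ℤ) : ℚ) := by
      exact_mod_cast hz
    push_cast at this
    linear_combination this
  have hs1Q : (s₁ : ℚ) = (d₁ * (ν * n) + 1) / ρ₁ := by
    rw [eq_div_iff h1Q]
    have : ((ρ₁ * s₁ : ℤ) : ℚ) = ((d₁ * (ν * n) + 1 : ℤ) : ℚ) := by exact_mod_cast hρ₁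
    push_cast at this
    linear_combination this
  have hs2Q : (s₂ : ℚ) = (d₂ * n + 1) / ρ₂ := by
    rw [eq_div_iff h2Q]
    have : ((ρ₂ * s₂ : ℤ) : ℚ) = ((d₂ * n + 1 : ℤ) : ℚ) := by exact_mod_cast hρ₂
    push_cast at this
    linear_combination this
  rw [← Int.cast_inj (α := ℚ), ← Int.cast_inj (α := ℚ), ← Int.cast_inj (α := ℚ),
    ← Int.cast_inj (α := ℚ)]
  simp only [P₁, F₁, S₁, K₁, c', z', e', P₂, K₂, U, V]
  push_cast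
  rw [hzQ, hcQ, hCQ, hs1Q, hs2Q]
  clear hzQ hcQ hCQ hs1Q hs2Q hN hρ₁ hρ₂ hc hz
  rcases hν with rfl | rfl <;> rcases hd₁ with rfl | rfl <;> rcases hd₂ with rfl | rfl <;>
    push_cast <;> refine ⟨?_, ?_, ?_, ?_⟩ <;> field_simp <;> ring

end Pool.Agent.Mukai
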