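import Pool.Agent.Work.MP_1e087a_ag.Basic

/-!
# Multiplication by units, the main identity
-/

namespace Pool.Agent.Mukai

variable {n B C : ℤ}

/-- multiplication by `δ + t (B + √Δ) / 2` -/
def Em (n B C δ t : ℤ) (D : ℤ × ℤ) : ℤ × ℤ :=
  (δ * D.1 - t * C * D.2, t * n * D.1 + (δ + t * B) * D.2)

theorem qf_Em (δ t : ℤ) (D : ℤ × ℤ) :
    qf n B C (Em n B C δ t D) = (δ * (δ + t * B) + t ^ 2 * n * C) * qf n B C D := by
  simp only [qf, Em]
  ring

theorem Em_conj (δ t : ℤ) (D : ℤ × ℤ) :
    Em n B C (δ + t * B) (-t) (Em n B C δ t D) =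
      (δ * (δ + t * B) + t ^ 2 * n * C) • D := by
  obtain ⟨u, w⟩ := D
  ext <;> simp [Em] <;> ring

theorem Em_conj' (δ t : ℤ) (D : ℤ × ℤ) :
    Em n B C δ t (Em n B C (δ + t * B) (-t) D) =
      (δ * (δ + t * B) + t ^ 2 * n * C) • D := by
  obtain ⟨u, w⟩ := D
  ext <;> simp [Em] <;> ring

theorem Em_add (δ t : ℤ) (D D' : ℤ × ℤ) :
    Em n B C δ t (D + D') = Em n B C δ t D + Em n B C δ t D' := by
  ext <;> simp [Em] <;> ring

theorem Em_smul (δ t k : ℤ) (D : ℤ × ℤ) : Em n B C δ t (k • D) = k • Em n B C δ t D := by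
  ext <;> simp [Em] <;> ring

/-- `ν (id ⊕ ε²)`, where `ε = δ + t (B + √Δ) / 2` has norm `ν = ±1` -/
def mE (n B C δ t ν : ℤ) (hν : ν * ν = 1) (hN : δ * (δ + t * B) + t ^ 2 * n * C = ν) : Au :=
  AddEquiv.toIntLinearEquiv
  { toFun := fun x => (ν * x.1, ν * x.2.1, ν • Em n B C δ t (Em n B C δ t x.2.2))
    invFun := fun x => (ν * x.1, ν * x.2.1,
      ν • Em n B C (δ + t * B) (-t) (Em n B C (δ + t * B) (-t) x.2.2))
    left_inv := by
      intro x
      obtain ⟨x1, x2, D⟩ := x
      have h1 : ν * (ν * x1) = x1 := by rw [← mul_assoc, hν, one_mul]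
      have h2 : ν * (ν * x2) = x2 := by rw [← mul_assoc, hν, one_mul]
      have h3 : ν • Em n B C (δ + t * B) (-t) (Em n B C (δ + t * B) (-t)
          (ν • Em n B C δ t (Em n B C δ t D))) = D := by
        rw [Em_smul, Em_smul, Em_conj, Em_smul, Em_conj, hN, smul_smul, smul_smul, smul_smul,
          hν, one_mul, hν, one_smul]
      simp only [h1, h2, h3]
    right_inv := by
      intro x
      obtain ⟨x1, x2, D⟩ := x
      have h1 : ν * (ν * x1) = x1 := by rw [← mul_assoc, hν, one_mul]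
      have h2 : ν * (ν * x2) = x2 := by rw [← mul_assoc, hν, one_mul]
      have h3 : ν • Em n B C δ t (Em n B C δ t
          (ν • Em n B C (δ + t * B) (-t) (Em n B C (δ + t * B) (-t) D))) = D := by
        rw [Em_smul, Em_smul, Em_conj', Em_smul, Em_conj', hN, smul_smul, smul_smul, smul_smul,
          hν, one_mul, hν, one_smul]
      simp only [h1, h2, h3]
    map_add' := by
      intro x y
      ext <;> simp [Em] <;> ring }

theorem mE_apply {δ t ν : ℤ} (hν : ν * ν = 1) (hN : δ * (δ + t * B) + t ^ 2 * n * C = ν)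
    (x : Mu) : mE n B C δ t ν hν hN x =
      (ν * x.1, ν * x.2.1, ν • Em n B C δ t (Em n B C δ t x.2.2)) := rfl

/-- the product of the reflections in `(Δ ρ, s, β)` and `(1, Δ, 0)` -/
theorem refl_two {ρ s d : ℤ} {β : ℤ × ℤ} (hd : d * d = 1) (hρ : ρ * s = d * qf n B C β + 1)
    (x : Mu) : refl n B C (d * ρ, s, β) (refl n B C (1, d, 0) x) =
      (ρ ^ 2 * x.1 + ρ * pf n B C β x.2.2 + qf n B C β * x.2.1,
        qf n B C β * x.1 + d * s * pf n B C β x.2.2 + s ^ 2 * x.2.1,
        x.2.2 + (d * ρ * x.1 + s * x.2.1 + d * pf n B C β x.2.2) • β) := by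
  obtain ⟨x1, x2, D⟩ := x
  have hQ : Qf n B C (d * ρ, s, β) = -d := by
    simp only [Qf]
    linear_combination (-d) * hρ + (-(qf n B C β)) * hd
  have hQ' : Qf n B C (1, d, 0) = -d := by
    simp [Qf, qf]
  have e1 : refl n B C (1, d, 0) (x1, x2, D) = (-d * x2, -d * x1, D) := by
    have hP : Pf n B C (x1, x2, D) (1, d, 0) = -(d * x1) - x2 := by
      simp [Pf, pf]
      ring
    rw [refl, hQ', hP]
    ext
    · simp
      linear_combination (-x1) * hd
    · simp
      linear_combination (-(d * x1) - x2) * hd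
    · simp
    · simp
  have hP : Pf n B C (-d * x2, -d * x1, D) (d * ρ, s, β) =
      pf n B C β D + d * x2 * s + d * x1 * (d * ρ) := by
    simp only [Pf, pf_comm D β]
    ring
  rw [e1, refl, hQ, hP]
  generalize hp : pf n B C β D = p
  generalize hq : qf n B C β = q at hρ
  obtain ⟨b1, b2⟩ := β
  obtain ⟨D1, D2⟩ := D
  have hd' : d = 1 ∨ d = -1 := by
    have h : (d - 1) * (d + 1) = 0 := by linear_combination hd
    rcases mul_eq_zero.1 h with h | h
    · left; linarith
    · right; linarith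
  rcases hd' with rfl | rfl
  · ext
    · simp
      linear_combination x2 * hρ
    · simp
      linear_combination x1 * hρ
    · simp
      ring
    · simp
      ring
  · ext
    · simp
      linear_combination (-x2) * hρ
    · simp
      linear_combination (-x1) * hρ
    · simp
      ring
    · simp
      ring

end Pool.Agent.Mukai
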