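import Pool.Agent.Work.MP_1e087a_ag.Good

/-!
# The criterion for good values, powers
-/

namespace Pool.Agent.Mukai

variable {n B C : ℤ}

/-- the multiplication by `ε = δ + t (B + √Δ) / 2` of norm `ν` gives a product of reflections if
the number `n` is good -/
theorem mE_good {δ t ν : ℤ} (hn : n ≠ 0) (hν : ν = 1 ∨ ν = -1) (hν' : ν * ν = 1)
    (hN : δ * (δ + t * B) + t ^ 2 * n * C = ν) (hg : goodN n.natAbs = true) (ht : t ≠ 0) :
    mE n B C δ t ν hν' hN ∈ W n B C := by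
  have hc : IsCoprime δ n := by
    refine ⟨ν * (δ + t * B), ν * (t ^ 2 * C), ?_⟩
    linear_combination ν * hN + hν'
  obtain ⟨ρ₁, ρ₂, s₁, s₂, d₁, d₂, c, h1, h2, hd₁, hd₂, e₁, e₂, e₃⟩ := good_spec hn hν hg hc
  exact mE_mem hn ht h1 h2 hν hν' hd₁ hd₂ hN e₁ e₂ e₃

/-- the same with `δ = ± 1` modulo `n` -/
theorem mE_one {δ t ν k : ℤ} (hn : n ≠ 0) (hν : ν = 1 ∨ ν = -1) (hν' : ν * ν = 1)
    (hN : δ * (δ + t * B) + t ^ 2 * n * C = ν) (hδ : δ = 1 + n * k) (ht : t ≠ 0) :
    mE n B C δ t ν hν' hN ∈ W n B C := by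
  have h1 : ν ≠ 0 := by rcases hν with rfl | rfl <;> norm_num
  refine mE_mem (ρ₁ := 1) (ρ₂ := ν) (s₁ := ν * n + 1) (s₂ := ν * (n + 1)) (d₁ := 1) (d₂ := 1)
    (c := ν * k) hn ht one_ne_zero h1 hν hν' (Or.inl rfl) (Or.inl rfl) hN ?_ ?_ ?_
  · ring
  · linear_combination (n + 1) * hν'
  · rw [hδ]; ring

/-- the coefficients of the powers -/
def pw (n B C δ t : ℤ) : ℕ → ℤ × ℤ
  | 0 => (1, 0)
  | k + 1 => (δ * (pw n B C δ t k).1 - t * (n * C) * (pw n B C δ t k).2,
      δ * (pw n B C δ t k).2 + t * (pw n B C δ t k).1 + t * B * (pw n B C δ t k).2)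

theorem pw_norm {δ t ν : ℤ} (hN : δ * (δ + t * B) + t ^ 2 * n * C = ν) (k : ℕ) :
    (pw n B C δ t k).1 * ((pw n B C δ t k).1 + (pw n B C δ t k).2 * B) +
      (pw n B C δ t k).2 ^ 2 * n * C = ν ^ k := by
  induction k with
  | zero => simp [pw]
  | succ k ih =>
    simp only [pw]
    generalize (pw n B C δ t k).1 = a at *
    generalize (pw n B C δ t k).2 = b at *
    rw [pow_succ ν k, ← ih, ← hN]
    ring

theorem pw_mod (δ t : ℤ) (k : ℕ) : ∃ c, (pw n B C δ t k).1 = δ ^ k + n * c := by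
  induction k with
  | zero => exact ⟨0, by simp [pw]⟩
  | succ k ih =>
    obtain ⟨c, hc⟩ := ih
    refine ⟨δ * c - t * C * (pw n B C δ t k).2, ?_⟩
    simp only [pw]
    rw [hc, pow_succ]
    ring

theorem pw_Em (δ t : ℤ) (k : ℕ) (D : ℤ × ℤ) :
    Em n B C (pw n B C δ t (k + 1)).1 (pw n B C δ t (k + 1)).2 D =
      Em n B C δ t (Em n B C (pw n B C δ t k).1 (pw n B C δ t k).2 D) := by
  simp only [pw, Em]
  ext
  · simp
    ring
  · simp
    ring

theorem Em_comm (δ t δ' t' : ℤ) (D : ℤ × ℤ) :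
    Em n B C δ t (Em n B C δ' t' D) = Em n B C δ' t' (Em n B C δ t D) := by
  simp only [Em]
  ext
  · simp
    ring
  · simp
    ring

theorem pow_pm {ν : ℤ} (hν : ν = 1 ∨ ν = -1) (k : ℕ) : ν ^ k = 1 ∨ ν ^ k = -1 := by
  rcases hν with rfl | rfl
  · left; simp
  · exact neg_one_pow_eq_or ℤ k

theorem mE_pow {δ t ν : ℤ} (hν' : ν * ν = 1)
    (hN : δ * (δ + t * B) + t ^ 2 * n * C = ν) (k : ℕ) (hk' : ν ^ k * ν ^ k = 1) :
    mE n B C δ t ν hν' hN ^ k =
      mE n B C (pw n B C δ t k).1 (pw n B C δ t k).2 (ν ^ k) hk' (pw_norm hN k) := by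
  induction k with
  | zero =>
    apply LinearEquiv.ext
    intro x
    rw [mE_apply]
    simp [pw, Em]
  | succ k ih =>
    have hk : ν ^ k * ν ^ k = 1 := by rw [← mul_pow, hν', one_pow]
    rw [pow_succ', ih hk]
    apply LinearEquiv.ext
    intro x
    rw [LinearEquiv.mul_apply, mE_apply, mE_apply, mE_apply]
    simp only [pw_Em, Em_smul]
    rw [Em_comm _ _ (pw n B C δ t k).1, smul_smul, pow_succ']
    ext <;> simp [mul_assoc]

/-- powers -/
theorem mE_pow_mem {δ t ν : ℤ} (hn : n ≠ 0) (hν : ν = 1 ∨ ν = -1) (hν' : ν * ν = 1)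
    (hN : δ * (δ + t * B) + t ^ 2 * n * C = ν) :
    mE n B C δ t ν hν' hN ^ (Nat.totient n.natAbs) ∈ W n B C := by
  set k := Nat.totient n.natAbs with hk
  have hpm := pow_pm hν k
  have hk' : ν ^ k * ν ^ k = 1 := by rw [← mul_pow, hν', one_pow]
  rw [mE_pow hν' hN k hk']
  have hc : IsCoprime δ n := by
    refine ⟨ν * (δ + t * B), ν * (t ^ 2 * C), ?_⟩
    linear_combination ν * hN + hν'
  -- Euler
  have hE : ∃ c, δ ^ k = 1 + n * c := by
    have h1 : δ ^ k ≡ 1 [ZMOD n] := by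
      have h2 : IsCoprime δ (n.natAbs : ℤ) := by
        rcases Int.natAbs_eq n with h | h
        · rw [← h]; exact hc
        · have h2 : (n.natAbs : ℤ) = -n := by linarith
          rw [h2]; exact hc.neg_right
      have h3 : δ ^ k ≡ 1 [ZMOD n.natAbs] := by
        have h4 : IsUnit (δ : ZMod n.natAbs) := by
          obtain ⟨a, b, hab⟩ := h2
          refine IsUnit.of_mul_eq_one (a : ZMod n.natAbs) ?_
          have := congrArg (Int.cast : ℤ → ZMod n.natAbs) hab
          rw [Int.cast_add, Int.cast_mul, Int.cast_mul, Int.cast_one, Int.cast_natCast,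
            ZMod.natCast_self, mul_zero, add_zero] at this
          rw [mul_comm]; exact this
        obtain ⟨u, hu⟩ := h4
        have h5 := ZMod.pow_totient u
        have h6 : ((δ ^ k : ℤ) : ZMod n.natAbs) = ((1 : ℤ) : ZMod n.natAbs) := by
          push_cast
          rw [← hu, ← Units.val_pow_eq_pow_val, hk, h5, Units.val_one]
        exact (ZMod.intCast_eq_intCast_iff _ _ _).1 h6
      rcases Int.natAbs_eq n with h | h
      · rw [h]; exact h3
      · rw [h]; exact (Int.modEq_neg).2 h3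
    obtain ⟨c, hc⟩ := h1.symm.dvd
    exact ⟨c, by linarith⟩
  obtain ⟨c, hc⟩ := hE
  obtain ⟨c', hc'⟩ := pw_mod (n := n) (B := B) (C := C) δ t k
  by_cases ht : (pw n B C δ t k).2 = 0
  · -- the power is `± 1`
    have hN' := pw_norm hN k
    have h1 : (pw n B C δ t k).1 ^ 2 = ν ^ k := by
      rw [ht] at hN'
      linear_combination hN'
    have h2 : ν ^ k = 1 := by
      rcases hpm with h | h
      · exact h
      · rw [h] at h1
        nlinarith [sq_nonneg (pw n B C δ t k).1]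
    have h3 : mE n B C (pw n B C δ t k).1 (pw n B C δ t k).2 (ν ^ k) hk' (pw_norm hN k) = 1 := by
      apply LinearEquiv.ext
      intro x
      rw [mE_apply, h2]
      have h4 : (pw n B C δ t k).1 * (pw n B C δ t k).1 = 1 := by rw [← h2, ← h1]; ring
      obtain ⟨x1, x2, x3, x4⟩ := x
      ext
      · simp
      · simp
      · simp [Em, ht]
        rw [← mul_assoc, h4, one_mul]
      · simp [Em, ht]
        rw [← mul_assoc, h4, one_mul]
    rw [h3]
    exact one_mem _
  · refine mE_one hn hpm hk' (pw_norm hN k) (k := c + c') ?_ ht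
    rw [hc', hc]
    ring

end Pool.Agent.Mukai
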