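import Pool.Agent.Work.MP_1e087a_ag.Lift

/-!
# Reduction of the forms of small discriminant
-/

namespace Pool.Agent.Mukai

variable {n B C : ℤ}

theorem prim_ne {a : ℤ × ℤ} (ha : Prim a) (hΔs : ¬ IsSquare (B ^ 2 - 4 * n * C)) :
    qf n B C a ≠ 0 := by
  intro h
  obtain ⟨b, hb⟩ := ha.exists
  apply hΔs
  rw [← disc_cb hb, h]
  exact ⟨pf n B C a b, by ring⟩

theorem Prim.snd {a b : ℤ × ℤ} (h : a.1 * b.2 - a.2 * b.1 = 1) : Prim b :=
  ⟨-a.2, a.1, by linear_combination h⟩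

theorem Prim.fst {a b : ℤ × ℤ} (h : a.1 * b.2 - a.2 * b.1 = 1) : Prim a :=
  ⟨b.2, -b.1, by linear_combination h⟩

/-- a reduced basis -/
theorem exists_reduced (hΔ0 : 0 < B ^ 2 - 4 * n * C) (hΔs : ¬ IsSquare (B ^ 2 - 4 * n * C)) :
    ∃ a b : ℤ × ℤ, a.1 * b.2 - a.2 * b.1 = 1 ∧ |pf n B C a b| ≤ |qf n B C a| ∧
      |qf n B C a| ≤ |qf n B C b| ∧ qf n B C a * qf n B C b < 0 := by
  classical
  have hex : ∃ k : ℕ, ∃ a : ℤ × ℤ, Prim a ∧ (qf n B C a).natAbs = k :=
    ⟨_, (1, 0), ⟨1, 0, by norm_num⟩, rfl⟩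
  obtain ⟨a, ha, hk⟩ := Nat.find_spec hex
  have hmin : ∀ b : ℤ × ℤ, Prim b → |qf n B C a| ≤ |qf n B C b| := by
    intro b hb
    have h := Nat.find_min' hex ⟨b, hb, rfl⟩
    rw [← hk] at h
    rw [Int.abs_eq_natAbs, Int.abs_eq_natAbs]
    exact_mod_cast h
  obtain ⟨b₀, hb₀⟩ := ha.exists
  have ha0 : qf n B C a ≠ 0 := prim_ne ha hΔs
  -- the shift
  obtain ⟨k, hk⟩ : ∃ k : ℤ, |pf n B C a b₀ + k * (2 * qf n B C a)| ≤ |qf n B C a| := by
    have hm : (0 : ℤ) < 2 * |qf n B C a| := by positivity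
    set m := 2 * |qf n B C a| with hmd
    set p := pf n B C a b₀ with hp
    -- `p + |q|` modulo `2 |q|`
    have h1 := Int.emod_nonneg (p + |qf n B C a|) hm.ne'
    have h2 := Int.emod_lt_of_pos (p + |qf n B C a|) hm
    have h3 := Int.emod_add_mul_ediv (p + |qf n B C a|) m
    set r := (p + |qf n B C a|) % m
    set e := (p + |qf n B C a|) / m
    have h4 : p - e * m = r - |qf n B C a| := by linarith [mul_comm m e]
    rcases abs_cases (qf n B C a) with ⟨h5, _⟩ | ⟨h5, _⟩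
    · refine ⟨-e, ?_⟩
      have h6 : p + -e * (2 * qf n B C a) = r - |qf n B C a| := by
        rw [← h4, hmd, h5]; ring
      rw [h6, abs_le]
      constructor <;> linarith
    · refine ⟨e, ?_⟩
      have h6 : p + e * (2 * qf n B C a) = r - |qf n B C a| := by
        rw [← h4, hmd, h5]; ring
      rw [h6, abs_le]
      constructor <;> linarith
  set b : ℤ × ℤ := (b₀.1 + k * a.1, b₀.2 + k * a.2) with hb
  have hdet : a.1 * b.2 - a.2 * b.1 = 1 := by
    simp only [hb]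
    linear_combination hb₀
  have hpf : pf n B C a b = pf n B C a b₀ + k * (2 * qf n B C a) := by
    simp only [hb, pf, qf]
    ring
  have h1 : |pf n B C a b| ≤ |qf n B C a| := by rw [hpf]; exact hk
  have h2 : |qf n B C a| ≤ |qf n B C b| := hmin b (Prim.snd hdet)
  refine ⟨a, b, hdet, h1, h2, ?_⟩
  by_contra h3
  push Not at h3
  have h4 := disc_cb (n := n) (B := B) (C := C) hdet
  have h5 : pf n B C a b ^ 2 ≤ qf n B C a ^ 2 := sq_le_sq.2 h1
  have h6 : qf n B C a ^ 2 ≤ qf n B C a * qf n B C b := by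
    have h7 : |qf n B C a| * |qf n B C a| ≤ |qf n B C a| * |qf n B C b| :=
      mul_le_mul_of_nonneg_left h2 (abs_nonneg _)
    rw [← abs_mul, ← abs_mul, abs_of_nonneg h3, abs_of_nonneg (mul_self_nonneg _)] at h7
    linarith [sq (qf n B C a)]
  have h8 : 0 < qf n B C a ^ 2 := by positivity
  nlinarith

/-- the values at combinations of the basis vectors -/
theorem qf_comb {a b : ℤ × ℤ} (x y : ℤ) : qf n B C (cb a b (x, y)) =
    qf n B C a * x ^ 2 + pf n B C a b * (x * y) + qf n B C b * y ^ 2 := by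
  rw [qf_cb]
  rfl

theorem prim_comb {a b : ℤ × ℤ} (h : a.1 * b.2 - a.2 * b.1 = 1) {x y : ℤ}
    (hxy : IsCoprime x y) : Prim (cb a b (x, y)) := by
  obtain ⟨u, v, huv⟩ := hxy
  refine ⟨u * b.2 - v * a.2, v * a.1 - u * b.1, ?_⟩
  simp only [cb]
  linear_combination huv + (u * x + v * y) * h

/-- forms of discriminant less than `720` take a good value -/
theorem good_720 (hΔ0 : 0 < B ^ 2 - 4 * n * C) (hΔs : ¬ IsSquare (B ^ 2 - 4 * n * C))
    (hΔ : B ^ 2 - 4 * n * C < 720) : ∃ a, Prim a ∧ (qf n B C a).natAbs ∈ goodList := by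
  obtain ⟨a, b, hdet, h1, h2, h3⟩ := exists_reduced hΔ0 hΔs
  have hD := disc_cb (n := n) (B := B) (C := C) hdet
  have ha0 : qf n B C a ≠ 0 := prim_ne (Prim.fst hdet) hΔs
  by_contra hno
  push Not at hno
  have na := hno a (Prim.fst hdet)
  have nb := hno b (Prim.snd hdet)
  have nab := hno _ (prim_comb hdet (isCoprime_one_left (x := 1)))
  rw [qf_comb] at nab
  generalize qf n B C a = N at *
  generalize qf n B C b = M at *
  generalize pf n B C a b = P at *
  rw [← hD] at hΔ hΔs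
  have hNM : N * M = -(|N| * |M|) := by rw [← abs_mul, abs_of_neg h3]; ring
  have hNa := Int.abs_eq_natAbs N
  have hMa := Int.abs_eq_natAbs M
  have hPa := Int.abs_eq_natAbs P
  generalize hN' : N.natAbs = N' at *
  generalize hM' : M.natAbs = M' at *
  have hP2 : P ^ 2 = (P.natAbs : ℤ) ^ 2 := by rw [← hPa, sq_abs]
  have hb1 : (4 : ℤ) * (N' * M') + P ^ 2 < 720 := by
    rw [hNa, hMa] at hNM
    linarith
  rw [hNa, hMa] at h2
  have h2' : N' ≤ M' := by exact_mod_cast h2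
  have hb2 : 4 * (N' * M') < 720 := by
    have : (4 : ℤ) * (N' * M') < 720 := by nlinarith [sq_nonneg P]
    exact_mod_cast this
  have hb3 : N' ≤ 13 := by nlinarith
  have hN0 : N' ≠ 0 := by
    rintro rfl
    exact ha0 (Int.natAbs_eq_zero.1 hN')
  have hN12 : N' = 12 := by
    by_contra h
    apply na
    have : N' = 1 ∨ N' = 2 ∨ N' = 3 ∨ N' = 4 ∨ N' = 5 ∨ N' = 6 ∨ N' = 7 ∨ N' = 8 ∨ N' = 9 ∨
      N' = 10 ∨ N' = 11 ∨ N' = 13 := by omega
    rcases this with rfl | rfl | rfl | rfl | rfl | rfl | rfl | rfl | rfl | rfl | rfl | rfl <;>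
      decide
  subst hN12
  have hM12 : M' = 12 := by
    by_contra h
    apply nb
    have : M' = 13 ∨ M' = 14 := by omega
    rcases this with rfl | rfl <;> decide
  subst hM12
  -- `N = - M`
  have hNMs : N = -M := by
    have e1 : N = 12 ∨ N = -12 := by omega
    have e2 : M = 12 ∨ M = -12 := by omega
    rcases e1 with e1 | e1 <;> rcases e2 with e2 | e2 <;> rw [e1, e2] at h3 ⊢ <;> omega
  have hPs : P ^ 2 < 144 := by
    norm_num at hb1
    linarith
  have hP0 : P ≠ 0 := by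
    rintro rfl
    apply hΔs
    have : N * M = -144 := by
      rw [hNM, hNa, hMa]
      norm_num
    exact ⟨24, by linarith⟩
  have hP12 : P.natAbs < 12 := by
    have : (P.natAbs : ℤ) ^ 2 < 12 ^ 2 := by rw [← hP2]; linarith
    have h5 := lt_of_pow_lt_pow_left₀ 2 (by norm_num) this
    exact_mod_cast h5
  have hP1 : 0 < P.natAbs := Int.natAbs_pos.2 hP0
  apply nab
  have : N * 1 ^ 2 + P * (1 * 1) + M * 1 ^ 2 = P := by rw [hNMs]; ring
  rw [this]
  generalize P.natAbs = p at *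
  have : p = 1 ∨ p = 2 ∨ p = 3 ∨ p = 4 ∨ p = 5 ∨ p = 6 ∨ p = 7 ∨ p = 8 ∨ p = 9 ∨
      p = 10 ∨ p = 11 := by omega
  rcases this with rfl | rfl | rfl | rfl | rfl | rfl | rfl | rfl | rfl | rfl | rfl <;> decide

end Pool.Agent.Mukai
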