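import Pool.Agent.Work.MP_1e087a_ag.Red

/-!
# Reduction of the primitive forms of discriminant less than `5353`
-/

namespace Pool.Agent.Mukai

variable {n B C : ℤ}

/-- the absolute value of `N x² + B x y - C y²` (`s = true`) or `N x² - B x y - C y²` -/
def val (N B C x y : ℕ) (s : Bool) : ℕ :=
  if s then (N * x * x + B * x * y - C * y * y) + (C * y * y - (N * x * x + B * x * y))
  else (N * x * x - (C * y * y + B * x * y)) + ((C * y * y + B * x * y) - N * x * x)

/-- the vectors -/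
def vecs : List (ℕ × ℕ × Bool) := [(1, 1, true), (2, 1, true), (3, 1, false), (2, 1, false),
  (1, 1, false), (3, 2, false), (7, 2, false), (4, 3, false), (2, 3, true), (5, 2, false),
  (11, 4, true), (3, 4, true), (5, 2, true)]

/-- the check of one form -/
def chk (N B C : ℕ) : Bool :=
  vecs.any (fun v => goodList.contains (val N B C v.1 v.2.1 v.2.2)) ||
    (Nat.gcd (Nat.gcd N B) C != 1 || (Nat.ble 5353 (B * B + 4 * (N * C)) ||
      (List.range 74).any fun k => k * k == B * B + 4 * (N * C)))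

/-- the bad values at most `36` -/
def badList : List ℕ := [12, 18, 24, 28, 30, 32, 33, 36]

theorem chk_all : (badList.all fun N => (List.range (N + 1)).all fun B =>
    (List.range (1338 / N + 1)).all fun C => Nat.blt C N || chk N B C) = true := by
  decide +kernel

theorem chk_spec {N B C : ℕ} (hN : N ∈ badList) (hB : B ≤ N) (hNC : N ≤ C)
    (hC : C ≤ 1338 / N) : chk N B C = true := by
  have h := chk_all
  rw [List.all_eq_true] at h
  have h1 := h N hN
  rw [List.all_eq_true] at h1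
  have h2 := h1 B (List.mem_range.2 (by omega))
  rw [List.all_eq_true] at h2
  have h3 := h2 C (List.mem_range.2 (by omega))
  rw [Bool.or_eq_true] at h3
  rcases h3 with h3 | h3
  · exfalso
    have := Nat.blt_eq.mp h3
    omega
  · exact h3

theorem vecs_coprime : ∀ v ∈ vecs, Nat.Coprime v.1 v.2.1 := by
  decide

theorem natAbs_sub_eq (u v : ℕ) : ((u : ℤ) - v).natAbs = (u - v) + (v - u) := by
  omega

theorem val_true (N B C x y : ℕ) : val N B C x y true =
    ((N : ℤ) * x ^ 2 + B * (x * y) - C * y ^ 2).natAbs := by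
  have h : (N : ℤ) * x ^ 2 + B * (x * y) - C * y ^ 2 =
      ((N * x * x + B * x * y : ℕ) : ℤ) - ((C * y * y : ℕ) : ℤ) := by
    push_cast
    ring
  rw [h, natAbs_sub_eq]
  rfl

theorem val_false (N B C x y : ℕ) : val N B C x y false =
    ((N : ℤ) * x ^ 2 - B * (x * y) - C * y ^ 2).natAbs := by
  have h : (N : ℤ) * x ^ 2 - B * (x * y) - C * y ^ 2 =
      ((N * x * x : ℕ) : ℤ) - ((C * y * y + B * x * y : ℕ) : ℤ) := by
    push_cast
    ring
  rw [h, natAbs_sub_eq]
  rfl

/-- a form `± (N, ± B, - C)` of the list takes a good value -/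
theorem good_val {N B C : ℕ} (hc : chk N B C = true) (hg : Nat.gcd (Nat.gcd N B) C = 1)
    (hD : B * B + 4 * (N * C) < 5353) (hs : ¬ IsSquare (B * B + 4 * (N * C))) :
    ∃ x y : ℤ, IsCoprime x y ∧ ((N : ℤ) * x ^ 2 + B * (x * y) - C * y ^ 2).natAbs ∈ goodList := by
  unfold chk at hc
  rw [hg] at hc
  have h1 : Nat.ble 5353 (B * B + 4 * (N * C)) = false := by
    rw [← Bool.not_eq_true, Nat.ble_eq]
    omega
  have h2 : ((List.range 74).any fun k => k * k == B * B + 4 * (N * C)) = false := by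
    rw [← Bool.not_eq_true, List.any_eq_true]
    rintro ⟨k, _, hk⟩
    exact hs ⟨k, (beq_iff_eq.1 hk).symm⟩
  rw [h1, h2] at hc
  simp only [bne_self_eq_false, Bool.or_false, List.any_eq_true, List.contains_iff_mem] at hc
  obtain ⟨⟨x, y, s⟩, hv, hm⟩ := hc
  have hcop : IsCoprime (x : ℤ) (y : ℤ) := Nat.isCoprime_iff_coprime.2 (vecs_coprime _ hv)
  cases s with
  | true =>
    rw [val_true] at hm
    exact ⟨x, y, hcop, hm⟩
  | false =>
    rw [val_false] at hm
    refine ⟨x, -y, hcop.neg_right, ?_⟩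
    have h : (N : ℤ) * x ^ 2 + B * (x * -(y : ℤ)) - C * (-(y : ℤ)) ^ 2 =
        (N : ℤ) * x ^ 2 - B * (x * y) - C * y ^ 2 := by ring
    rw [h]
    exact hm

/-- primitive forms of discriminant less than `5353` take a good value -/
theorem good_5353 (hΔ0 : 0 < B ^ 2 - 4 * n * C) (hΔs : ¬ IsSquare (B ^ 2 - 4 * n * C))
    (hΔ : B ^ 2 - 4 * n * C < 5353) (hprim : ∀ k : ℤ, k ∣ n → k ∣ B → k ∣ C → IsUnit k) :
    ∃ a, Prim a ∧ (qf n B C a).natAbs ∈ goodList := by
  obtain ⟨a, b, hdet, h1, h2, h3⟩ := exists_reduced hΔ0 hΔs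
  have hD := disc_cb (n := n) (B := B) (C := C) hdet
  have ha0 : qf n B C a ≠ 0 := prim_ne (Prim.fst hdet) hΔs
  -- the content of the reduced form
  have hcont : ∀ k : ℤ, k ∣ qf n B C a → k ∣ pf n B C a b → k ∣ qf n B C b → IsUnit k := by
    rintro k ⟨u, hu⟩ ⟨v, hv⟩ ⟨w, hw⟩
    have e : ∀ x : ℤ × ℤ, k ∣ qf n B C x := by
      intro x
      rw [← cb_inv hdet x, qf_cb, hu, hv, hw]
      generalize cb (b.2, -a.2) (-b.1, a.1) x = y
      exact ⟨u * y.1 ^ 2 + v * (y.1 * y.2) + w * y.2 ^ 2, by simp only [qf]; ring⟩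
    refine hprim k ?_ ?_ ?_
    · have := e (1, 0)
      simpa [qf] using this
    · have e1 := e (1, 1)
      have e2 := e (1, 0)
      have e3 := e (0, 1)
      have : qf n B C (1, 1) - qf n B C (1, 0) - qf n B C (0, 1) = B := by
        simp only [qf]
        ring
      rw [← this]
      exact dvd_sub (dvd_sub e1 e2) e3
    · have := e (0, 1)
      simpa [qf] using this
  by_contra hno
  push Not at hno
  have na := hno a (Prim.fst hdet)
  have nab : ∀ x y : ℤ, IsCoprime x y → (qf n B C a * x ^ 2 + pf n B C a b * (x * y) +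
      qf n B C b * y ^ 2).natAbs ∉ goodList := by
    intro x y hxy
    rw [← qf_comb]
    exact hno _ (prim_comb hdet hxy)
  clear hno
  generalize qf n B C a = N at *
  generalize qf n B C b = M at *
  generalize pf n B C a b = P at *
  rw [← hD] at hΔ hΔs
  -- natural numbers
  have hNM : N * M = -(|N| * |M|) := by rw [← abs_mul, abs_of_neg h3]; ring
  have hNa := Int.abs_eq_natAbs N
  have hMa := Int.abs_eq_natAbs M
  have hPa := Int.abs_eq_natAbs P
  have hP2 : P ^ 2 = (P.natAbs : ℤ) * P.natAbs := by rw [← hPa, abs_mul_abs_self, sq]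
  have hDn : P ^ 2 - 4 * N * M = ((P.natAbs * P.natAbs + 4 * (N.natAbs * M.natAbs) : ℕ) : ℤ) := by
    push_cast
    rw [abs_mul_abs_self]
    linear_combination -4 * hNM
  rw [hDn] at hΔ hΔs
  have hD1 : P.natAbs * P.natAbs + 4 * (N.natAbs * M.natAbs) < 5353 := by exact_mod_cast hΔ
  have hs1 : ¬ IsSquare (P.natAbs * P.natAbs + 4 * (N.natAbs * M.natAbs)) := by
    rintro ⟨r, hr⟩
    exact hΔs ⟨r, by rw [hr]; push_cast; ring⟩
  have hBN : P.natAbs ≤ N.natAbs := by
    rw [hPa, hNa] at h1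
    exact_mod_cast h1
  have hNMn : N.natAbs ≤ M.natAbs := by
    rw [hNa, hMa] at h2
    exact_mod_cast h2
  have hN0 : N.natAbs ≠ 0 := fun h => ha0 (Int.natAbs_eq_zero.1 h)
  have hN36 : N.natAbs ≤ 36 := by
    by_contra h
    push Not at h
    have : 37 * 37 ≤ N.natAbs * M.natAbs :=
      Nat.mul_le_mul (Nat.succ_le_of_lt h) (le_trans (Nat.succ_le_of_lt h) hNMn)
    omega
  have hbad : N.natAbs ∈ badList := by
    have key : ∀ m : ℕ, m ≤ 36 → m ≠ 0 → m ∉ goodList → m ∈ badList := by decide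
    exact key _ hN36 hN0 na
  have hM : M.natAbs ≤ 1338 / N.natAbs := by
    rw [Nat.le_div_iff_mul_le (Nat.pos_of_ne_zero hN0)]
    have : M.natAbs * N.natAbs = N.natAbs * M.natAbs := Nat.mul_comm _ _
    rw [this]
    omega
  have hchk := chk_spec hbad hBN hNMn hM
  have hgcd : Nat.gcd (Nat.gcd N.natAbs P.natAbs) M.natAbs = 1 := by
    set g := Nat.gcd (Nat.gcd N.natAbs P.natAbs) M.natAbs with hg
    have g1 : (g : ℤ) ∣ N := Int.natCast_dvd.2
      ((Nat.gcd_dvd_left _ _).trans (Nat.gcd_dvd_left _ _))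
    have g2 : (g : ℤ) ∣ P := Int.natCast_dvd.2
      ((Nat.gcd_dvd_left _ _).trans (Nat.gcd_dvd_right _ _))
    have g3 : (g : ℤ) ∣ M := Int.natCast_dvd.2 (Nat.gcd_dvd_right _ _)
    have := hcont g g1 g2 g3
    exact Int.ofNat_isUnit.1 this |> Nat.isUnit_iff.1
  obtain ⟨x, y, hxy, hm⟩ := good_val hchk hgcd hD1 hs1
  -- the signs
  rcases Int.natAbs_eq N with eN | eN <;> rcases Int.natAbs_eq M with eM | eM <;>
    rcases Int.natAbs_eq P with eP | eP
  all_goals generalize N.natAbs = N' at *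
  all_goals generalize M.natAbs = M' at *
  all_goals generalize P.natAbs = P' at *
  all_goals subst eN
  all_goals subst eM
  all_goals subst eP
  · exact absurd h3 (not_lt.2 (by positivity))
  · exact absurd h3 (not_lt.2 (by positivity))
  · apply nab x y hxy
    have : (N' : ℤ) * x ^ 2 + P' * (x * y) + -(M' : ℤ) * y ^ 2 =
      N' * x ^ 2 + P' * (x * y) - M' * y ^ 2 := by ring
    rw [this]; exact hm
  · apply nab x (-y) hxy.neg_right
    have : (N' : ℤ) * x ^ 2 + -(P' : ℤ) * (x * -y) + -(M' : ℤ) * (-y) ^ 2 =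
      N' * x ^ 2 + P' * (x * y) - M' * y ^ 2 := by ring
    rw [this]; exact hm
  · apply nab x (-y) hxy.neg_right
    have : -(N' : ℤ) * x ^ 2 + (P' : ℤ) * (x * -y) + (M' : ℤ) * (-y) ^ 2 =
      -(N' * x ^ 2 + P' * (x * y) - M' * y ^ 2) := by ring
    rw [this, Int.natAbs_neg]; exact hm
  · apply nab x y hxy
    have : -(N' : ℤ) * x ^ 2 + -(P' : ℤ) * (x * y) + (M' : ℤ) * y ^ 2 =
      -(N' * x ^ 2 + P' * (x * y) - M' * y ^ 2) := by ring
    rw [this, Int.natAbs_neg]; exact hm
  · exact absurd h3 (not_lt.2 (by rw [neg_mul_neg]; positivity))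
  · exact absurd h3 (not_lt.2 (by rw [neg_mul_neg]; positivity))

end Pool.Agent.Mukai
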