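import Pool.Agent.Work.MP_1e087a_ag.Pow

/-!
# The isometries of `ℤ²` which act as `± 1` on the discriminant group
-/

namespace Pool.Agent.Mukai

variable {n B C : ℤ}

/-- the equations for the matrix `S` with `f = ν + S G` -/
theorem eqS {ν a b c d : ℤ} (hΔ : B ^ 2 - 4 * n * C ≠ 0)
    (h1 : n * (ν + 2 * n * a + B * b) ^ 2 + B * ((ν + 2 * n * a + B * b) * (2 * n * c + B * d)) +
      C * (2 * n * c + B * d) ^ 2 = n * ν ^ 2)
    (h2 : n * (B * a + 2 * C * b) ^ 2 + B * ((B * a + 2 * C * b) * (ν + B * c + 2 * C * d)) +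
      C * (ν + B * c + 2 * C * d) ^ 2 = C * ν ^ 2)
    (h3 : 2 * n * ((ν + 2 * n * a + B * b) * (B * a + 2 * C * b)) +
      B * ((ν + 2 * n * a + B * b) * (ν + B * c + 2 * C * d) +
        (2 * n * c + B * d) * (B * a + 2 * C * b)) +
      2 * C * ((2 * n * c + B * d) * (ν + B * c + 2 * C * d)) = B * ν ^ 2) :
    n * a ^ 2 + B * (a * c) + C * c ^ 2 = -ν * a ∧
    n * b ^ 2 + B * (b * d) + C * d ^ 2 = -ν * d ∧
    2 * n * (a * b) + B * (a * d + b * c) + 2 * C * (c * d) = -ν * (b + c) := by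
  have hΔ2 : (B ^ 2 - 4 * n * C) ^ 2 ≠ 0 := pow_ne_zero _ hΔ
  refine ⟨?_, ?_, ?_⟩
  · apply mul_left_cancel₀ hΔ2
    linear_combination (4 * C ^ 2) * h1 - (2 * B * C) * h3 + B ^ 2 * h2
  · apply mul_left_cancel₀ hΔ2
    linear_combination (B ^ 2) * h1 - (2 * n * B) * h3 + (4 * n ^ 2) * h2
  · apply mul_left_cancel₀ hΔ2
    linear_combination (-4 * B * C) * h1 + (4 * n * C + B ^ 2) * h3 - (4 * n * B) * h2

theorem eqP {ν a b c d : ℤ} (hν : ν * ν = 1)
    (h11 : n * a ^ 2 + B * (a * c) + C * c ^ 2 = -ν * a)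
    (h22 : n * b ^ 2 + B * (b * d) + C * d ^ 2 = -ν * d)
    (h12 : 2 * n * (a * b) + B * (a * d + b * c) + 2 * C * (c * d) = -ν * (b + c)) :
    (a * d - b * c) * (n * (a * d - b * c) + ν * d) = 0 ∧
    (a * d - b * c) * (C * (a * d - b * c) + ν * a) = 0 ∧
    (a * d - b * c) * (B * (a * d - b * c) - ν * (b + c)) = 0 ∧
    (c - b) ^ 2 = (a * d - b * c) * ((B ^ 2 - 4 * n * C) * (a * d - b * c) + 4) := by
  refine ⟨?_, ?_, ?_, ?_⟩
  · linear_combination d ^ 2 * h11 - (d * c) * h12 + c ^ 2 * h22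
  · linear_combination b ^ 2 * h11 - (a * b) * h12 + a ^ 2 * h22
  · linear_combination (-2 * b * d) * h11 + (a * d + b * c) * h12 - (2 * a * c) * h22
  · linear_combination (-(b + c) ^ 2 + 4 * a * d) * hν +
      (4 * n * b ^ 2 + 4 * B * (b * d) + 4 * C * d ^ 2) * h11 + (-4 * ν * a) * h22 -
      (2 * n * (a * b) + B * (a * d + b * c) + 2 * C * (c * d) - ν * (b + c)) * h12

/-- two coprime factors of a square -/
theorem coprime_sq {x y T : ℤ} (hc : IsCoprime x y) (h : T ^ 2 = x * y) (hT : T ≠ 0) :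
    ∃ σ s t : ℤ, (σ = 1 ∨ σ = -1) ∧ x = σ * t ^ 2 ∧ y = σ * s ^ 2 := by
  obtain ⟨t, ht⟩ := Int.sq_of_isCoprime hc h.symm
  obtain ⟨s, hs⟩ := Int.sq_of_isCoprime hc.symm (by rw [mul_comm]; exact h.symm)
  have hp : 0 < x * y := by rw [← h]; positivity
  rcases ht with ht | ht <;> rcases hs with hs | hs
  · exact ⟨1, s, t, Or.inl rfl, by rw [ht]; ring, by rw [hs]; ring⟩
  · exfalso
    rw [ht, hs] at hp
    nlinarith [mul_nonneg (sq_nonneg t) (sq_nonneg s)]
  · exfalso
    rw [ht, hs] at hp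
    nlinarith [mul_nonneg (sq_nonneg t) (sq_nonneg s)]
  · exact ⟨-1, s, t, Or.inr rfl, by rw [ht]; ring, by rw [hs]; ring⟩

/-- the square decomposition -/
theorem sq_decomp {κ ν T : ℤ} (hν : ν = 1 ∨ ν = -1) (hT : T ≠ 0)
    (h : T ^ 2 = κ * (κ * (B ^ 2 - 4 * n * C) + 4 * ν)) :
    ∃ σ s t : ℤ, (σ = 1 ∨ σ = -1) ∧ κ = σ * t ^ 2 ∧
      κ * (B ^ 2 - 4 * n * C) + 4 * ν = σ * s ^ 2 := by
  have hν' : ν * ν = 1 := by rcases hν with rfl | rfl <;> norm_num
  generalize hΔ : B ^ 2 - 4 * n * C = Δ at h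
  rcases Int.even_or_odd κ with ⟨k, hk⟩ | ho
  · rcases Int.even_or_odd k with ⟨l, hl⟩ | ho
    · -- `κ = 4 l`
      have hκ : κ = 4 * l := by rw [hk, hl]; ring
      obtain ⟨T', hT'⟩ : 4 ∣ T := by
        have h1 : (4 : ℤ) ^ 2 ∣ T ^ 2 := ⟨l * (l * Δ + ν), by rw [h, hκ]; ring⟩
        exact (Int.pow_dvd_pow_iff (two_ne_zero)).1 h1
      have h2 : T' ^ 2 = l * (l * Δ + ν) := by
        have h3 : (16 : ℤ) * T' ^ 2 = 16 * (l * (l * Δ + ν)) := by
          have : (16 : ℤ) * T' ^ 2 = T ^ 2 := by rw [hT']; ring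
          rw [this, h, hκ]; ring
        exact mul_left_cancel₀ (by norm_num) h3
      have hc : IsCoprime l (l * Δ + ν) := ⟨-(ν * Δ), ν, by linear_combination hν'⟩
      have h0 : T' ≠ 0 := by rintro rfl; exact hT (by rw [hT']; ring)
      obtain ⟨σ, s, t, hσ, e1, e2⟩ := coprime_sq hc h2 h0
      refine ⟨σ, 2 * s, 2 * t, hσ, ?_, ?_⟩
      · rw [hκ, e1]; ring
      · rw [hκ]
        linear_combination 4 * e2
    · -- `κ = 2 k` with `k` odd
      exfalso
      have hκ : κ = 2 * k := by rw [hk]; ring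
      obtain ⟨T', hT'⟩ : 2 ∣ T := by
        have h1 : (2 : ℤ) ^ 2 ∣ T ^ 2 := ⟨k * (k * Δ + 2 * ν), by rw [h, hκ]; ring⟩
        exact (Int.pow_dvd_pow_iff (two_ne_zero)).1 h1
      have h2 : T' ^ 2 = k * (k * Δ + 2 * ν) := by
        have h3 : (4 : ℤ) * T' ^ 2 = 4 * (k * (k * Δ + 2 * ν)) := by
          have : (4 : ℤ) * T' ^ 2 = T ^ 2 := by rw [hT']; ring
          rw [this, h, hκ]; ring
        exact mul_left_cancel₀ (by norm_num) h3
      obtain ⟨m, hm⟩ := ho
      have hB : B ^ 2 % 4 = 0 ∨ B ^ 2 % 4 = 1 := by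
        rcases Int.even_or_odd B with ⟨x, hx⟩ | ⟨x, hx⟩
        · left; rw [hx]; ring_nf; omega
        · right; rw [hx]; ring_nf; omega
      have hΔ4 : Δ % 4 = 0 ∨ Δ % 4 = 1 := by
        have : Δ = B ^ 2 - 4 * (n * C) := by rw [← hΔ]; ring
        rw [this]
        omega
      have hT4 : T' ^ 2 % 4 = 0 ∨ T' ^ 2 % 4 = 1 := by
        rcases Int.even_or_odd T' with ⟨x, hx⟩ | ⟨x, hx⟩
        · left; rw [hx]; ring_nf; omega
        · right; rw [hx]; ring_nf; omega
      -- `T'² = Δ + 2` modulo `4`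
      have h4 : T' ^ 2 = Δ + 2 + 4 * (m ^ 2 * Δ + m * Δ + m * ν + (ν - 1) / 2) +
          (2 * ν - 2 - 4 * ((ν - 1) / 2)) := by
        rw [h2, hm]; ring
      have h5 : (2 * ν - 2 - 4 * ((ν - 1) / 2)) = 0 := by
        rcases hν with rfl | rfl <;> norm_num
      rw [h5] at h4
      omega
  · have hc : IsCoprime κ (κ * Δ + 4 * ν) := by
      have h1 : IsCoprime κ (2 : ℤ) := by
        obtain ⟨m, hm⟩ := ho
        exact ⟨1, -m, by rw [hm]; ring⟩
      have h2 : IsCoprime κ (4 * ν) := by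
        have h3 : IsCoprime κ ((2 : ℤ) * 2) := h1.mul_right h1
        have h4 : IsCoprime κ ν := ⟨0, ν, by linear_combination hν'⟩
        have h5 := h3.mul_right h4
        norm_num at h5
        exact h5
      have h3 := h2.add_mul_left_right Δ
      have h4 : 4 * ν + κ * Δ = κ * Δ + 4 * ν := by ring
      rw [h4] at h3
      exact h3
    obtain ⟨σ, s, t, hσ, e1, e2⟩ := coprime_sq hc h hT
    exact ⟨σ, s, t, hσ, e1, e2⟩

/-- the additive maps of `ℤ²` -/
theorem map_eq (f : ℤ × ℤ →+ ℤ × ℤ) (x : ℤ × ℤ) : f x = x.1 • f (1, 0) + x.2 • f (0, 1) := by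
  have h : x = x.1 • ((1, 0) : ℤ × ℤ) + x.2 • ((0, 1) : ℤ × ℤ) := by
    ext <;> simp
  conv_lhs => rw [h]
  rw [map_add, map_zsmul, map_zsmul]

/-- the three kinds of isometries -/
theorem structure_f {ν : ℤ} (hν : ν = 1 ∨ ν = -1) {f : ℤ × ℤ →+ ℤ × ℤ}
    (hΔ0 : 0 < B ^ 2 - 4 * n * C) (hΔs : ¬ IsSquare (B ^ 2 - 4 * n * C))
    (hf : ∀ x, qf n B C (f x) = qf n B C x) (hd : DiscAct n B C ν f) :
    (∀ x, f x = ν • x) ∨
    (∃ w c₀, (c₀ = 1 ∨ c₀ = -1) ∧ qf n B C w = -(ν * c₀) ∧
      ∀ x, f x = ν • x + (c₀ * pf n B C w x) • w) ∨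
    (∃ σ δ t, (σ = 1 ∨ σ = -1) ∧ t ≠ 0 ∧ δ * (δ + t * B) + t ^ 2 * n * C = σ * ν ∧
      ∀ x, f x = σ • Em n B C δ t (Em n B C δ t x)) := by
  have hν' : ν * ν = 1 := by rcases hν with rfl | rfl <;> norm_num
  obtain ⟨⟨a, b⟩, h1⟩ := hd (AddMonoidHom.fst ℤ ℤ)
  obtain ⟨⟨c, d⟩, h2⟩ := hd (AddMonoidHom.snd ℤ ℤ)
  have f1 : ∀ x, (f x).1 = ν * x.1 + pf n B C (a, b) x := fun x => by
    have := h1 x
    simp only [AddMonoidHom.coe_fst] at this
    linarith
  have f2 : ∀ x, (f x).2 = ν * x.2 + pf n B C (c, d) x := fun x => by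
    have := h2 x
    simp only [AddMonoidHom.coe_snd] at this
    linarith
  have f11 : (f (1, 0)).1 = ν + 2 * n * a + B * b := by rw [f1]; simp [pf]; ring
  have f21 : (f (1, 0)).2 = 2 * n * c + B * d := by rw [f2]; simp [pf]
  have f12 : (f (0, 1)).1 = B * a + 2 * C * b := by rw [f1]; simp [pf]
  have f22 : (f (0, 1)).2 = ν + B * c + 2 * C * d := by rw [f2]; simp [pf]; ring
  have g1 := hf (1, 0)
  have g2 := hf (0, 1)
  have g3 := hf ((1, 0) + (0, 1))
  rw [map_add] at g3
  simp only [qf, Prod.fst_add, Prod.snd_add, f11, f12, f21, f22] at g1 g2 g3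
  have hν2 : ν ^ 2 = 1 := by rw [sq]; exact hν'
  obtain ⟨e11, e22, e12⟩ := eqS (n := n) (B := B) (C := C) (ν := ν) (a := a) (b := b) (c := c)
    (d := d) hΔ0.ne' (by rw [hν2]; linear_combination g1) (by rw [hν2]; linear_combination g2)
    (by rw [hν2]; linear_combination g3 - g1 - g2)
  obtain ⟨p1, p2, p3, p4⟩ := eqP hν' e11 e22 e12
  by_cases hP : a * d - b * c = 0
  · -- reflections
    rw [hP] at p4
    have hbc : c = b := by
      have : (c - b) ^ 2 = 0 := by rw [p4]; ring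
      have := pow_eq_zero_iff (two_ne_zero) |>.1 this
      linarith
    subst hbc
    have had : a * d = c ^ 2 := by linear_combination hP
    by_cases hz : a = 0 ∧ d = 0
    · left
      obtain ⟨rfl, rfl⟩ := hz
      have hc0 : c = 0 := by
        have : c ^ 2 = 0 := by rw [← had]; ring
        exact pow_eq_zero_iff (two_ne_zero) |>.1 this
      subst hc0
      intro x
      ext
      · rw [f1]; simp [pf]
      · rw [f2]; simp [pf]
    · right; left
      have hkey : n * a + B * c + C * d = -ν := by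
        by_cases ha : a = 0
        · have hd0 : d ≠ 0 := fun h => hz ⟨ha, h⟩
          subst ha
          have hc0 : c = 0 := by
            have : c ^ 2 = 0 := by rw [← had]; ring
            exact pow_eq_zero_iff (two_ne_zero) |>.1 this
          subst hc0
          apply mul_left_cancel₀ hd0
          linear_combination e22
        · apply mul_left_cancel₀ ha
          linear_combination e11 + C * had
      have hcop : IsCoprime a d := by
        -- a prime dividing `a` and `d` divides `c` and the key relation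
        rw [Int.isCoprime_iff_gcd_eq_one]
        by_contra hg
        obtain ⟨p, hp, hpa⟩ := Nat.exists_prime_and_dvd hg
        have hpZ : Prime (p : ℤ) := Nat.prime_iff_prime_int.1 hp
        have da : (p : ℤ) ∣ a := (Int.natCast_dvd_natCast.2 hpa).trans (Int.gcd_dvd_left ..)
        have dd : (p : ℤ) ∣ d := (Int.natCast_dvd_natCast.2 hpa).trans (Int.gcd_dvd_right ..)
        have dc : (p : ℤ) ∣ c := by
          refine hpZ.dvd_of_dvd_pow (n := 2) ?_
          rw [← had]
          exact dvd_mul_of_dvd_left da _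
        have d1 : (p : ℤ) ∣ -ν := by
          rw [← hkey]
          exact dvd_add (dvd_add (dvd_mul_of_dvd_right da _) (dvd_mul_of_dvd_right dc _))
            (dvd_mul_of_dvd_right dd _)
        have d2 : (p : ℤ) ∣ 1 := by
          rw [← hν']
          exact dvd_mul_of_dvd_left ((dvd_neg).1 d1) _
        exact hpZ.not_isUnit (isUnit_of_dvd_one d2)
      -- `S = c₀ w wᵗ`
      obtain ⟨w₁, w₂, c₀, hc₀, e1, e2, e3⟩ : ∃ w₁ w₂ c₀ : ℤ, (c₀ = 1 ∨ c₀ = -1) ∧
          a = c₀ * w₁ ^ 2 ∧ d = c₀ * w₂ ^ 2 ∧ c = c₀ * (w₁ * w₂) := by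
        by_cases hT : c = 0
        · subst hT
          have h3 : a * d = 0 := by rw [had]; ring
          rcases mul_eq_zero.1 h3 with h | h
          · subst h
            have : IsUnit d := isCoprime_zero_left.1 hcop
            rcases Int.isUnit_iff.1 this with rfl | rfl
            · exact ⟨0, 1, 1, Or.inl rfl, by ring, by ring, by ring⟩
            · exact ⟨0, 1, -1, Or.inr rfl, by ring, by ring, by ring⟩
          · subst h
            have : IsUnit a := isCoprime_zero_right.1 hcop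
            rcases Int.isUnit_iff.1 this with rfl | rfl
            · exact ⟨1, 0, 1, Or.inl rfl, by ring, by ring, by ring⟩
            · exact ⟨1, 0, -1, Or.inr rfl, by ring, by ring, by ring⟩
        · obtain ⟨σ, s, t, hσ, e1, e2⟩ := coprime_sq hcop had.symm hT
          have hσ' : σ * σ = 1 := by rcases hσ with rfl | rfl <;> norm_num
          have h3 : c ^ 2 = (t * s) ^ 2 := by
            rw [← had, e1, e2]
            linear_combination (t ^ 2 * s ^ 2) * hσ'
          rcases sq_eq_sq_iff_eq_or_eq_neg.1 h3 with h | h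
          · refine ⟨t, σ * s, σ, hσ, e1, ?_, ?_⟩
            · rw [e2]; linear_combination (-σ * s ^ 2) * hσ'
            · rw [h]; linear_combination (-t * s) * hσ'
          · refine ⟨t, -(σ * s), σ, hσ, e1, ?_, ?_⟩
            · rw [e2]; linear_combination (-σ * s ^ 2) * hσ'
            · rw [h]; linear_combination (t * s) * hσ'
      have hc₀' : c₀ * c₀ = 1 := by rcases hc₀ with rfl | rfl <;> norm_num
      refine ⟨(w₁, w₂), c₀, hc₀, ?_, ?_⟩
      · simp only [qf]
        rw [e1, e2, e3] at hkey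
        linear_combination c₀ * hkey - (n * w₁ ^ 2 + B * (w₁ * w₂) + C * w₂ ^ 2) * hc₀'
      · intro x
        ext
        · rw [f1]
          simp only [pf, Prod.fst_add, Prod.smul_fst, smul_eq_mul]
          rw [e1, e3]
          ring
        · rw [f2]
          simp only [pf, Prod.snd_add, Prod.smul_snd, smul_eq_mul]
          rw [e2, e3]
          ring
  · -- multiplications by squares of units
    right; right
    have q1 := (mul_eq_zero.1 p1).resolve_left hP
    have q2 := (mul_eq_zero.1 p2).resolve_left hP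
    have q3 := (mul_eq_zero.1 p3).resolve_left hP
    set κ := ν * (a * d - b * c) with hκ
    have hκ' : ν * κ = a * d - b * c := by rw [hκ]; linear_combination (a * d - b * c) * hν'
    rw [← hκ'] at q1 q2 q3 p4
    have r1 : d = -(n * κ) := by
      linear_combination ν * q1 - (n * κ + d) * hν'
    have r2 : a = -(C * κ) := by
      linear_combination ν * q2 - (C * κ + a) * hν'
    have r3 : b + c = B * κ := by
      linear_combination -ν * q3 + (B * κ - (b + c)) * hν'
    have hκ0 : κ ≠ 0 := by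
      intro h
      rw [h, mul_zero] at hκ'
      exact hP hκ'.symm
    have hT : (c - b) ^ 2 = κ * (κ * (B ^ 2 - 4 * n * C) + 4 * ν) := by
      rw [p4]
      linear_combination (κ ^ 2 * (B ^ 2 - 4 * n * C)) * hν'
    have hT0 : c - b ≠ 0 := by
      intro h
      rw [h] at hT
      have h3 : κ * (B ^ 2 - 4 * n * C) + 4 * ν = 0 := by
        rcases mul_eq_zero.1 (show κ * (κ * (B ^ 2 - 4 * n * C) + 4 * ν) = 0 by
          rw [← hT]; ring) with h | h
        · exact absurd h hκ0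
        · exact h
      have h4 : (B ^ 2 - 4 * n * C) * (-(ν * κ)) = 4 := by
        linear_combination (-ν) * h3 + 4 * hν'
      have hB : B ^ 2 % 4 = 0 ∨ B ^ 2 % 4 = 1 := by
        rcases Int.even_or_odd B with ⟨x, hx⟩ | ⟨x, hx⟩
        · left; rw [hx]; ring_nf; omega
        · right; rw [hx]; ring_nf; omega
      have h5 : (B ^ 2 - 4 * n * C) % 4 = 0 ∨ (B ^ 2 - 4 * n * C) % 4 = 1 := by
        have : B ^ 2 - 4 * n * C = B ^ 2 - 4 * (n * C) := by ring
        rw [this]
        omega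
      generalize B ^ 2 - 4 * n * C = Δ at *
      have h6 : Δ ≤ 4 := Int.le_of_dvd (by norm_num) ⟨_, h4.symm⟩
      have h7 : Δ = 1 ∨ Δ = 4 := by omega
      rcases h7 with rfl | rfl
      · exact hΔs ⟨1, by norm_num⟩
      · exact hΔs ⟨2, by norm_num⟩
    obtain ⟨σ, s, t, hσ, e1, e2⟩ := sq_decomp hν hT0 hT
    have hσ' : σ * σ = 1 := by rcases hσ with rfl | rfl <;> norm_num
    have ht : t ≠ 0 := by
      rintro rfl
      exact hκ0 (by rw [e1]; ring)
    -- the sign of `s`
    obtain ⟨s', hs', hs2⟩ : ∃ s', c - b = σ * (s' * t) ∧ s' ^ 2 = s ^ 2 := by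
      have h3 : (c - b) ^ 2 = (s * t) ^ 2 := by
        rw [hT, e2, e1]
        linear_combination (t ^ 2 * s ^ 2) * hσ'
      rcases sq_eq_sq_iff_eq_or_eq_neg.1 h3 with h | h
      · refine ⟨σ * s, ?_, ?_⟩
        · rw [h]; linear_combination (-s * t) * hσ'
        · linear_combination (s ^ 2) * hσ'
      · refine ⟨-(σ * s), ?_, ?_⟩
        · rw [h]; linear_combination (s * t) * hσ'
        · linear_combination (s ^ 2) * hσ'
    rw [← hs2] at e2
    have hpell : s' ^ 2 - (B ^ 2 - 4 * n * C) * t ^ 2 = 4 * (σ * ν) := by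
      rw [e1] at e2
      linear_combination -σ * e2 + (s' ^ 2 - (B ^ 2 - 4 * n * C) * t ^ 2) * (-hσ')
    -- parity
    obtain ⟨δ, hδ⟩ : ∃ δ, s' - t * B = 2 * δ := by
      have h3 : Even (s' ^ 2 - (t * B) ^ 2) :=
        ⟨2 * (σ * ν) - 2 * (n * C) * t ^ 2, by linear_combination hpell⟩
      have h4 : Even (s' - t * B) := by
        rw [Int.even_sub] at h3 ⊢
        rw [Int.even_pow' two_ne_zero, Int.even_pow' two_ne_zero] at h3
        exact h3
      obtain ⟨δ, hδ⟩ := h4
      exact ⟨δ, by rw [hδ]; ring⟩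
    have hs : s' = 2 * δ + t * B := by linarith
    have hN : δ * (δ + t * B) + t ^ 2 * n * C = σ * ν := by
      have h4 : (4 : ℤ) * (δ * (δ + t * B) + t ^ 2 * n * C) = 4 * (σ * ν) := by
        rw [← hpell, hs]
        ring
      exact mul_left_cancel₀ (by norm_num) h4
    refine ⟨σ, δ, t, hσ, ht, hN, ?_⟩
    intro x
    have hb : 2 * b = B * κ - σ * (s' * t) := by linear_combination r3 - hs'
    have hc : 2 * c = B * κ + σ * (s' * t) := by linear_combination r3 + hs'
    have hk2 : κ * (B ^ 2 - 4 * n * C) = σ * s' ^ 2 - 4 * ν := by linarith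
    have hσN : σ * (δ * (δ + t * B) + t ^ 2 * n * C) = ν := by
      rw [hN]; linear_combination ν * hσ'
    rw [hs] at hb hc hk2
    rw [map_eq f x]
    ext
    · apply mul_left_cancel₀ (two_ne_zero (α := ℤ))
      simp only [Prod.fst_add, Prod.smul_fst, smul_eq_mul, f11, f12, Em]
      rw [r2]
      linear_combination (x.1 * B + x.2 * 2 * C) * hb + x.1 * hk2 + 2 * x.1 * hσN
    · apply mul_left_cancel₀ (two_ne_zero (α := ℤ))
      simp only [Prod.snd_add, Prod.smul_snd, smul_eq_mul, f21, f22, Em]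
      rw [r1]
      linear_combination (x.1 * 2 * n + x.2 * B) * hc + x.2 * hk2 + 2 * x.2 * hσN

end Pool.Agent.Mukai
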